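import Mathlib
import Pool.Agent.TH419.WI.Rel

/-! A small value of a linear form in integers with large `S`-parts gives a linear relation. -/

set_option autoImplicit false

open Finset Filter Topology

namespace Pool.Agent.U773.WN

open Pool.Agent.TH419.WI

/-- Points `g^(e l) * z l` such that the value `≤ E` of a linear form times the product of the `|z l|`,
`l ≠ i0`, is much smaller than `g^(e i0)`, satisfy a linear relation infinitely often. -/
theorem relZ (O : Type) [CommRing O] [IsDomain O] [CharZero O] [Module.Free ℤ O]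
    [Module.Finite ℤ O] (φ : O →+* ℂ) (hreal : ∀ x, (φ x).im = 0) {n k : ℕ} (g : Fin k → ℕ)
    (hg : ∀ v, 0 < g v) (i0 : Fin n) (v : Fin n → O) (hv : v i0 ≠ 0) (C δ : ℝ) (hC : 0 ≤ C)
    (hδ : 0 < δ) (L : ℕ → ℝ) (hL : Tendsto L atTop atTop)
    (e : ℕ → Fin n → Fin k → ℕ) (z : ℕ → Fin n → ℤ) (E : ℕ → ℝ)
    (h1 : ∀ᶠ t in atTop, ∀ l, ((mon g (e t l) : ℤ) : ℝ) ≤ Real.exp (C * L t))
    (h2 : ∀ᶠ t in atTop, ∀ l, l ≠ i0 → z t l ≠ 0)
    (h2' : ∀ᶠ t in atTop, ∀ l, l ≠ i0 → |(z t l : ℝ)| ≤ Real.exp (C * L t))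
    (h3 : ∀ᶠ t in atTop, z t ≠ 0)
    (hE : ∀ᶠ t in atTop, 1 ≤ E t ∧ E t ≤ Real.exp (C * L t))
    (h4 : ∀ᶠ t in atTop, ‖φ (∑ l, v l * ((mon g (e t l) * z t l : ℤ) : O))‖ ≤ E t)
    (h5 : ∀ᶠ t in atTop, E t * ∏ l ∈ univ.erase i0, |(z t l : ℝ)| ≤
      ((mon g (e t i0) : ℤ) : ℝ) * Real.exp (-(δ * L t))) :
    ∃ y : Fin n → ℤ, y ≠ 0 ∧ ∃ᶠ t in atTop, ∑ l, y l * (mon g (e t l) * z t l) = 0 := by
  classical
  have hn : 1 ≤ n := by
    have := i0.isLt
    omega
  have hnR : (1 : ℝ) ≤ n := by exact_mod_cast hn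
  set c : ℝ := 2 * n * C + 2 * C + 1 with hc
  have hc1 : 1 ≤ c := by
    have : 0 ≤ 2 * n * C := by positivity
    linarith
  have hL0 : ∀ᶠ t in atTop, 0 ≤ L t := hL.eventually_ge_atTop 0
  set A : ℕ → Fin n → ℝ := fun t l => if l = i0 then E t else
    ((mon g (e t l) : ℤ) : ℝ) * |(z t l : ℝ)| with hA
  have hmpos : ∀ t l, (0 : ℝ) < ((mon g (e t l) : ℤ) : ℝ) := fun t l => by
    exact_mod_cast mon_pos hg (e t l)
  have hmone : ∀ t l, (1 : ℝ) ≤ ((mon g (e t l) : ℤ) : ℝ) := fun t l => by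
    have := mon_pos hg (e t l)
    exact_mod_cast this
  have hlog0 : ∀ t l, 0 ≤ Real.log ((mon g (e t l) : ℤ) : ℝ) := fun t l => Real.log_nonneg (hmone t l)
  have hlogC : ∀ᶠ t in atTop, ∀ l, Real.log ((mon g (e t l) : ℤ) : ℝ) ≤ C * L t := by
    filter_upwards [h1] with t ht l
    rw [Real.log_le_iff_le_exp (hmpos t l)]
    exact ht l
  have hzone : ∀ᶠ t in atTop, ∀ l, l ≠ i0 → 1 ≤ |(z t l : ℝ)| := by
    filter_upwards [h2] with t ht l hl
    have : 1 ≤ |z t l| := Int.one_le_abs (ht l hl)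
    exact_mod_cast this
  refine subDiag O φ hn g hg (Matrix.updateRow 1 i0 v) ?_ (fun i j => hreal _) c δ hc1
    hδ L hL e A z ?_ ?_ ?_ ?_ h3 ?_
  · have h5 := Matrix.cramer_transpose_apply (1 : Matrix (Fin n) (Fin n) O) v i0
    rw [Matrix.transpose_one, Matrix.cramer_one] at h5
    rw [← h5]
    exact hv
  · filter_upwards [hlogC, hL0] with t h5 h6
    refine (Finset.sum_le_sum fun l _ => h5 l).trans ?_
    rw [Finset.sum_const, Finset.card_univ, Fintype.card_fin, nsmul_eq_mul, hc]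
    have : 0 ≤ n * (C * L t) := by positivity
    have : 0 ≤ C * L t := by positivity
    nlinarith
  · filter_upwards [hE, hzone] with t hEt hz l
    simp only [hA]
    split_ifs with hl
    · linarith [hEt.1]
    · exact mul_pos (hmpos t l) (by linarith [hz l hl])
  · filter_upwards [hlogC, hL0, hE, hzone, h2'] with t h5 h6 hEt hz h2t l
    have h7 : 0 ≤ (n : ℝ) * C * L t := by positivity
    have h8 : 0 ≤ C * L t := by positivity
    simp only [hA]
    split_ifs with hl
    · rw [abs_of_nonneg (Real.log_nonneg hEt.1), hc]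
      have h9 : Real.log (E t) ≤ C * L t := by
        rw [Real.log_le_iff_le_exp (by linarith [hEt.1])]
        exact hEt.2
      nlinarith
    · have h10 : 0 < |(z t l : ℝ)| := by linarith [hz l hl]
      have h9 : Real.log |(z t l : ℝ)| ≤ C * L t := by
        rw [Real.log_le_iff_le_exp h10]
        exact h2t l hl
      have h11 : 0 ≤ Real.log |(z t l : ℝ)| := Real.log_nonneg (hz l hl)
      rw [Real.log_mul (hmpos t l).ne' h10.ne', abs_of_nonneg (add_nonneg (hlog0 t l) h11), hc]
      have h12 := h5 l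
      nlinarith
  · filter_upwards [hL0, hE, hzone, h5] with t h6 hEt hz h7
    have hprod : (0 : ℝ) < ∏ l ∈ univ.erase i0, |(z t l : ℝ)| :=
      Finset.prod_pos fun l hl => by linarith [hz l (Finset.ne_of_mem_erase hl)]
    have h8 := Real.log_le_log (mul_pos (by linarith [hEt.1]) hprod) h7
    rw [Real.log_mul (by linarith [hEt.1]) hprod.ne', Real.log_mul (hmpos t i0).ne'
      (Real.exp_pos _).ne', Real.log_exp, Real.log_prod (fun l hl => by
        have := hz l (Finset.ne_of_mem_erase hl)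
        linarith)] at h8
    rw [← Finset.add_sum_erase univ _ (Finset.mem_univ i0),
      ← Finset.add_sum_erase univ (fun l => Real.log ((mon g (e t l) : ℤ) : ℝ)) (Finset.mem_univ i0)]
    have h9 : ∑ l ∈ univ.erase i0, Real.log (A t l) = ∑ l ∈ univ.erase i0,
        Real.log ((mon g (e t l) : ℤ) : ℝ) + ∑ l ∈ univ.erase i0, Real.log |(z t l : ℝ)| := by
      rw [← Finset.sum_add_distrib]
      refine Finset.sum_congr rfl fun l hl => ?_
      have hl' := Finset.ne_of_mem_erase hl
      simp only [hA]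
      rw [if_neg hl', Real.log_mul (hmpos t l).ne' (by linarith [hz l hl'])]
    have h10 : A t i0 = E t := by simp [hA]
    rw [h9, h10]
    linarith
  · filter_upwards [h4] with t h4t l
    simp only [hA]
    by_cases hl : l = i0
    · rw [if_pos hl, hl]
      simp only [Matrix.updateRow_self]
      exact h4t
    · rw [if_neg hl]
      simp only [Matrix.updateRow_ne hl]
      rw [Finset.sum_eq_single l]
      · rw [Matrix.one_apply_eq, one_mul, map_intCast, Complex.norm_intCast]
        push_cast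
        rw [abs_mul, abs_of_pos (hmpos t l)]
      · intro j _ hj
        rw [Matrix.one_apply_ne hj.symm, zero_mul]
      · intro h
        exact absurd (Finset.mem_univ l) h

end Pool.Agent.U773.WN
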