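import Mathlib
import Pool.Agent.U773.WN.Rel

/-! The arithmetic of sums of numbers with large `S`-parts and one number of small valuation. -/

set_option autoImplicit false

open Finset Filter Topology

namespace Pool.Agent.U773.WN

open Pool.Agent.TH419.WI

/-- a number of bounded valuation does not become divisible by a high power of two -/
lemma not_dvd {p : ℕ} (hp : p.Prime) {y A : ℤ} {v0 U : ℕ} (hy : y ≠ 0)
    (hA : ¬ (p : ℤ) ^ v0 ∣ A) (hU : v0 + y.natAbs ≤ U) : ¬ (p : ℤ) ^ U ∣ y * A := by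
  intro h
  have hA0 : A ≠ 0 := by
    rintro rfl
    exact hA (dvd_zero _)
  haveI : Fact (Nat.Prime p) := ⟨hp⟩
  have h1 : ¬ v0 ≤ padicValInt p A := by
    intro h2
    exact hA ((padicValInt_dvd_iff (p := p) v0 A).2 (Or.inr h2))
  have h3 := (padicValInt_dvd_iff (p := p) U (y * A)).1 (by exact_mod_cast h)
  rcases h3 with h3 | h3
  · exact mul_ne_zero hy hA0 h3
  · rw [padicValInt.mul hy hA0] at h3
    have h4 : (p : ℤ) ^ padicValInt p y ∣ y := by
      have := (padicValInt_dvd_iff (p := p) (padicValInt p y) y).2 (Or.inr le_rfl)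
      exact_mod_cast this
    have h5 : p ^ padicValInt p y ≤ y.natAbs := by
      apply Nat.le_of_dvd (Int.natAbs_pos.2 hy)
      have := Int.natAbs_dvd_natAbs.2 h4
      rwa [Int.natAbs_pow, Int.natAbs_natCast] at this
    have h6 : padicValInt p y < p ^ padicValInt p y := Nat.lt_pow_self hp.one_lt
    omega

/-- the data of the distinguished number `A = g^eA * zA` -/
structure Frame {k : ℕ} (p : ℕ) (g : Fin k → ℕ) (C F0 : ℝ) (v0 : ℕ) (L : ℕ → ℝ) (U : ℕ → ℕ) (G : ℕ → ℝ)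
    (eA : ℕ → Fin k → ℕ) (zA : ℕ → ℤ) : Prop where
  hL : Tendsto L atTop atTop
  hU : Tendsto U atTop atTop
  hz : ∀ᶠ t in atTop, zA t ≠ 0 ∧ |(zA t : ℝ)| ≤ F0
  hv : ∀ᶠ t in atTop, ¬ (p : ℤ) ^ v0 ∣ mon g (eA t) * zA t
  hC : ∀ᶠ t in atTop, ((mon g (eA t) : ℤ) : ℝ) ≤ Real.exp (C * L t)
  hG : ∀ᶠ t in atTop, G t ≤ F0 * ((mon g (eA t) : ℤ) : ℝ)

lemma Frame.comp {k p : ℕ} {g : Fin k → ℕ} {C F0 : ℝ} {v0 : ℕ} {L : ℕ → ℝ} {U : ℕ → ℕ} {G : ℕ → ℝ}
    {eA : ℕ → Fin k → ℕ} {zA : ℕ → ℤ} (h : Frame p g C F0 v0 L U G eA zA) {ψ : ℕ → ℕ}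
    (hψ : Tendsto ψ atTop atTop) :
    Frame p g C F0 v0 (fun n => L (ψ n)) (fun n => U (ψ n)) (fun n => G (ψ n)) (fun n => eA (ψ n))
      (fun n => zA (ψ n)) where
  hL := h.hL.comp hψ
  hU := h.hU.comp hψ
  hz := hψ.eventually h.hz
  hv := hψ.eventually h.hv
  hC := hψ.eventually h.hC
  hG := hψ.eventually h.hG

/-- the other terms: nonzero multiples of `2 ^ U` of bounded height -/
def Terms {k : ℕ} (p : ℕ) (g : Fin k → ℕ) (C : ℝ) (L : ℕ → ℝ) (U : ℕ → ℕ) {r : ℕ}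
    (e : ℕ → Fin r → Fin k → ℕ) (z : ℕ → Fin r → ℤ) : Prop :=
  ∀ᶠ t in atTop, ∀ l, ((mon g (e t l) : ℤ) : ℝ) ≤ Real.exp (C * L t) ∧ z t l ≠ 0 ∧
    |(z t l : ℝ)| ≤ Real.exp (C * L t) ∧ (p : ℤ) ^ U t ∣ mon g (e t l) * z t l

lemma ev_const {L : ℕ → ℝ} (hL : Tendsto L atTop atTop) (K ε : ℝ) (hε : 0 < ε) :
    ∀ᶠ t in atTop, K ≤ Real.exp (ε * L t) :=
  (Real.tendsto_exp_atTop.comp (hL.const_mul_atTop hε)).eventually_ge_atTop K

lemma terms_comp {k p : ℕ} {g : Fin k → ℕ} {C : ℝ} {L : ℕ → ℝ} {U : ℕ → ℕ} {r : ℕ}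
    {e : ℕ → Fin r → Fin k → ℕ} {z : ℕ → Fin r → ℤ} (h : Terms p g C L U e z) {ψ : ℕ → ℕ}
    (hψ : Tendsto ψ atTop atTop) :
    Terms p g C (fun n => L (ψ n)) (fun n => U (ψ n)) (fun n => e (ψ n)) (fun n => z (ψ n)) :=
  hψ.eventually h

lemma terms_sub {k p : ℕ} {g : Fin k → ℕ} {C : ℝ} {L : ℕ → ℝ} {U : ℕ → ℕ} {r : ℕ}
    {e : ℕ → Fin (r + 1) → Fin k → ℕ} {z : ℕ → Fin (r + 1) → ℤ} (h : Terms p g C L U e z)
    (l0 : Fin (r + 1)) :
    Terms p g C L U (fun n j => e n (l0.succAbove j)) (fun n j => z n (l0.succAbove j)) := by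
  filter_upwards [h] with t ht j
  exact ht _

lemma prod_one_le {k p : ℕ} {g : Fin k → ℕ} {C : ℝ} {L : ℕ → ℝ} {U : ℕ → ℕ} {r : ℕ}
    {e : ℕ → Fin r → Fin k → ℕ} {z : ℕ → Fin r → ℤ} (h : Terms p g C L U e z) :
    ∀ᶠ t in atTop, (∀ l, 1 ≤ |(z t l : ℝ)|) ∧ 1 ≤ ∏ l, |(z t l : ℝ)| := by
  filter_upwards [h] with t ht
  have h1 : ∀ l, 1 ≤ |(z t l : ℝ)| := fun l => by
    have : 1 ≤ |z t l| := Int.one_le_abs (ht l).2.1
    exact_mod_cast this
  refine ⟨h1, ?_⟩
  have h2 := Finset.prod_le_prod (s := Finset.univ) (f := fun _ : Fin r => (1 : ℝ))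
    (g := fun l => |(z t l : ℝ)|) (fun _ _ => zero_le_one) (fun l _ => h1 l)
  simpa using h2

lemma prod_cons {r : ℕ} (a : ℤ) (z : Fin r → ℤ) : ∏ l ∈ univ.erase (0 : Fin (r + 1)),
    |((Fin.cons a z : Fin (r + 1) → ℤ) l : ℝ)| = ∏ l, |(z l : ℝ)| := by
  have h5 : (univ.erase (0 : Fin (r + 1))) = Finset.univ.map (Fin.succEmb r) := by
    ext l
    simp only [mem_erase, mem_univ, and_true, Finset.mem_map, Fin.coe_succEmb, true_and]
    constructor
    · intro hl
      obtain ⟨i, rfl⟩ := Fin.exists_succ_eq.2 hl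
      exact ⟨i, rfl⟩
    · rintro ⟨i, rfl⟩
      exact Fin.succ_ne_zero i
  rw [h5, Finset.prod_map]
  simp

/-- elimination of one term -/
lemma elim {k p : ℕ} {g : Fin k → ℕ} {C : ℝ} {r : ℕ} {O : Type} [CommRing O] {ρ : O →+* ℝ}
    {L : ℕ → ℝ} {U : ℕ → ℕ} {G : ℕ → ℝ} (hL : Tendsto L atTop atTop)
    {e : ℕ → Fin (r + 1) → Fin k → ℕ} {z : ℕ → Fin (r + 1) → ℤ} (h : Terms p g C L U e z)
    (θ : Fin (r + 1) → O) (R : ℕ → ℝ) {δ : ℝ} (hδ : 0 < δ)
    (hs : ∀ᶠ t in atTop, (1 + |R t + ∑ l, ρ (θ l) * ((mon g (e t l) * z t l : ℤ) : ℝ)|) *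
      ∏ l, |(z t l : ℝ)| ≤ G t * Real.exp (-(δ * L t)))
    (y : Fin (r + 1) → ℤ) (l0 : Fin (r + 1)) (hy : y l0 ≠ 0)
    (hrel : ∀ t, ∑ l, y l * (mon g (e t l) * z t l) = 0) :
    ∀ᶠ t in atTop, (1 + |(y l0 : ℝ) * R t + ∑ j : Fin r,
      ρ (((y l0 : ℤ) : O) * θ (l0.succAbove j) - ((y (l0.succAbove j) : ℤ) : O) * θ l0) *
        ((mon g (e t (l0.succAbove j)) * z t (l0.succAbove j) : ℤ) : ℝ)|) *
      ∏ j : Fin r, |(z t (l0.succAbove j) : ℝ)| ≤ G t * Real.exp (-(δ / 2 * L t)) := by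
  filter_upwards [hs, prod_one_le h, ev_const hL |(y l0 : ℝ)| (δ / 2) (by positivity)] with t h1 h2 h3
  have hrelR : (y l0 : ℝ) * ((mon g (e t l0) * z t l0 : ℤ) : ℝ) +
      ∑ j : Fin r, (y (l0.succAbove j) : ℝ) *
        ((mon g (e t (l0.succAbove j)) * z t (l0.succAbove j) : ℤ) : ℝ) = 0 := by
    have h4 := hrel t
    rw [Fin.sum_univ_succAbove _ l0] at h4
    exact_mod_cast h4
  have hform : (y l0 : ℝ) * R t + ∑ j : Fin r,
      ρ (((y l0 : ℤ) : O) * θ (l0.succAbove j) - ((y (l0.succAbove j) : ℤ) : O) * θ l0) *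
        ((mon g (e t (l0.succAbove j)) * z t (l0.succAbove j) : ℤ) : ℝ) =
      (y l0 : ℝ) * (R t + ∑ l, ρ (θ l) * ((mon g (e t l) * z t l : ℤ) : ℝ)) := by
    rw [Fin.sum_univ_succAbove _ l0]
    have h5 : ∀ j : Fin r,
        ρ (((y l0 : ℤ) : O) * θ (l0.succAbove j) - ((y (l0.succAbove j) : ℤ) : O) * θ l0) *
        ((mon g (e t (l0.succAbove j)) * z t (l0.succAbove j) : ℤ) : ℝ) =
        (y l0 : ℝ) * (ρ (θ (l0.succAbove j)) *
          ((mon g (e t (l0.succAbove j)) * z t (l0.succAbove j) : ℤ) : ℝ)) -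
        ρ (θ l0) * ((y (l0.succAbove j) : ℝ) *
          ((mon g (e t (l0.succAbove j)) * z t (l0.succAbove j) : ℤ) : ℝ)) := by
      intro j
      rw [map_sub, map_mul, map_mul, map_intCast, map_intCast]
      ring
    simp only [h5]
    rw [Finset.sum_sub_distrib, ← Finset.mul_sum, ← Finset.mul_sum]
    have h6 : ∑ j : Fin r, (y (l0.succAbove j) : ℝ) *
        ((mon g (e t (l0.succAbove j)) * z t (l0.succAbove j) : ℤ) : ℝ) =
        -((y l0 : ℝ) * ((mon g (e t l0) * z t l0 : ℤ) : ℝ)) := by linarith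
    rw [h6]
    ring
  rw [hform, abs_mul]
  have hy1 : 1 ≤ |(y l0 : ℝ)| := by
    have : 1 ≤ |y l0| := Int.one_le_abs hy
    exact_mod_cast this
  have hz1 : ∏ j : Fin r, |(z t (l0.succAbove j) : ℝ)| ≤ ∏ l, |(z t l : ℝ)| := by
    rw [Fin.prod_univ_succAbove _ l0]
    have h7 : 0 ≤ ∏ j : Fin r, |(z t (l0.succAbove j) : ℝ)| :=
      Finset.prod_nonneg fun j _ => abs_nonneg _
    nlinarith [h2.1 l0]
  set Q := |R t + ∑ l, ρ (θ l) * ((mon g (e t l) * z t l : ℤ) : ℝ)| with hQ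
  have hQ0 : 0 ≤ Q := abs_nonneg _
  have hGe : 0 ≤ G t * Real.exp (-(δ * L t)) := le_trans (by
    have := h2.2
    positivity) h1
  have hP0 : 0 ≤ ∏ j : Fin r, |(z t (l0.succAbove j) : ℝ)| :=
      Finset.prod_nonneg fun j _ => abs_nonneg _
  calc (1 + |(y l0 : ℝ)| * Q) * ∏ j : Fin r, |(z t (l0.succAbove j) : ℝ)|
      ≤ (|(y l0 : ℝ)| * (1 + Q)) * ∏ l, |(z t l : ℝ)| := by
        apply mul_le_mul _ hz1 hP0 (by positivity)
        nlinarith
    _ = |(y l0 : ℝ)| * ((1 + Q) * ∏ l, |(z t l : ℝ)|) := by ring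
    _ ≤ Real.exp (δ / 2 * L t) * (G t * Real.exp (-(δ * L t))) :=
        mul_le_mul h3 h1 (by have := h2.2; positivity) (Real.exp_pos _).le
    _ = G t * (Real.exp (δ / 2 * L t) * Real.exp (-(δ * L t))) := by ring
    _ = G t * Real.exp (-(δ / 2 * L t)) := by
        rw [← Real.exp_add]; congr 2; ring

/-- **Claim A.** -/
theorem claimA (O : Type) [CommRing O] [IsDomain O] [CharZero O] [Module.Free ℤ O]
    [Module.Finite ℤ O] (ρ : O →+* ℝ) {k p : ℕ} (hp : p.Prime) {g : Fin k → ℕ} (hg : ∀ v, 0 < g v) {C F0 : ℝ}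
    (hC : 0 ≤ C) (hF0 : 1 ≤ F0) {v0 : ℕ} (r : ℕ) :
    ∀ (L : ℕ → ℝ) (U : ℕ → ℕ) (G : ℕ → ℝ) (eA : ℕ → Fin k → ℕ) (zA : ℕ → ℤ),
      Frame p g C F0 v0 L U G eA zA → ∀ (α : O), α ≠ 0 → ∀ (θ : Fin r → O)
      (e : ℕ → Fin r → Fin k → ℕ) (z : ℕ → Fin r → ℤ), Terms p g C L U e z → ∀ δ : ℝ, 0 < δ →
      (∀ᶠ t in atTop, (1 + |ρ α * ((mon g (eA t) * zA t : ℤ) : ℝ) +
        ∑ l, ρ (θ l) * ((mon g (e t l) * z t l : ℤ) : ℝ)|) * ∏ l, |(z t l : ℝ)| ≤
        G t * Real.exp (-(δ * L t))) → False := by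
  induction r with
  | zero => ?_
  | succ s ih => ?_
  all_goals
    intro L U G eA zA hfr α hα θ e z hT δ hδ hs
    let φ : O →+* ℂ := (Complex.ofRealHom).comp ρ
    have hφ : ∀ x : O, φ x = ((ρ x : ℝ) : ℂ) := fun x => rfl
    have hreal : ∀ x : O, (φ x).im = 0 := fun x => Complex.ofReal_im _
    have hnorm : ∀ x : O, ‖φ x‖ = |ρ x| := fun x => by rw [hφ, Complex.norm_real]; rfl
    have hL0 : ∀ᶠ t in atTop, 0 ≤ L t := hfr.hL.eventually_ge_atTop 0
    obtain ⟨y, hy, hfreq⟩ := relZ O φ hreal g hg 0 (Fin.cons α θ) (by simpa using hα) (C + 1) (δ / 2)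
      (by linarith) (by positivity) L hfr.hL (fun t => Fin.cons (eA t) (e t))
      (fun t => Fin.cons (zA t) (z t))
      (fun t => 1 + |ρ α * ((mon g (eA t) * zA t : ℤ) : ℝ) +
        ∑ l, ρ (θ l) * ((mon g (e t l) * z t l : ℤ) : ℝ)|)
      (by
        filter_upwards [hfr.hC, hT, hL0] with t h1 h2 h3 l
        have h4 : Real.exp (C * L t) ≤ Real.exp ((C + 1) * L t) := Real.exp_le_exp.2 (by nlinarith)
        refine Fin.cases ?_ (fun i => ?_) l
        · rw [Fin.cons_zero]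
          exact h1.trans h4
        · rw [Fin.cons_succ]
          exact (h2 i).1.trans h4)
      (by
        filter_upwards [hT] with t h2 l hl
        obtain ⟨i, rfl⟩ := Fin.exists_succ_eq.2 hl
        rw [Fin.cons_succ]
        exact (h2 i).2.1)
      (by
        filter_upwards [hT, hL0] with t h2 h3 l hl
        have h4 : Real.exp (C * L t) ≤ Real.exp ((C + 1) * L t) := Real.exp_le_exp.2 (by nlinarith)
        obtain ⟨i, rfl⟩ := Fin.exists_succ_eq.2 hl
        rw [Fin.cons_succ]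
        exact (h2 i).2.2.1.trans h4)
      (by
        filter_upwards [hfr.hz] with t h2 h0
        apply h2.1
        have := congrFun h0 0
        rwa [Fin.cons_zero] at this)
      (by
        filter_upwards [hs, prod_one_le hT, hfr.hC, hfr.hG, hL0,
          ev_const hfr.hL F0 1 one_pos] with t h1 h2 h3 h4 h5 h6
        refine ⟨by linarith [abs_nonneg (ρ α * ((mon g (eA t) * zA t : ℤ) : ℝ) +
          ∑ l, ρ (θ l) * ((mon g (e t l) * z t l : ℤ) : ℝ))], ?_⟩
        set Q := |ρ α * ((mon g (eA t) * zA t : ℤ) : ℝ) +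
          ∑ l, ρ (θ l) * ((mon g (e t l) * z t l : ℤ) : ℝ)| with hQ
        have hQ0 : 0 ≤ Q := abs_nonneg _
        have hm := mon_pos hg (eA t)
        have hm' : (0 : ℝ) < ((mon g (eA t) : ℤ) : ℝ) := by exact_mod_cast hm
        have h7 : Real.exp (-(δ * L t)) ≤ 1 := by
          rw [Real.exp_le_one_iff]
          have : 0 ≤ δ * L t := by positivity
          linarith
        calc 1 + Q ≤ (1 + Q) * ∏ l, |(z t l : ℝ)| := by
              have := h2.2
              nlinarith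
          _ ≤ G t * Real.exp (-(δ * L t)) := h1
          _ ≤ (F0 * ((mon g (eA t) : ℤ) : ℝ)) * 1 := by
              apply mul_le_mul h4 h7 (Real.exp_pos _).le (by positivity)
          _ = F0 * ((mon g (eA t) : ℤ) : ℝ) := mul_one _
          _ ≤ Real.exp (1 * L t) * Real.exp (C * L t) :=
              mul_le_mul h6 h3 hm'.le (Real.exp_pos _).le
          _ = Real.exp ((C + 1) * L t) := by rw [← Real.exp_add]; congr 1; ring)
      (by
        filter_upwards with t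
        rw [hnorm, Fin.sum_univ_succ]
        simp only [Fin.cons_zero, Fin.cons_succ]
        rw [map_add, map_sum, map_mul, map_intCast]
        simp only [map_mul, map_intCast]
        linarith)
      (by
        filter_upwards [hs, hfr.hG, ev_const hfr.hL F0 (δ / 2) (by positivity)] with t h1 h2 h3
        rw [prod_cons]
        have hm := mon_pos hg (eA t)
        have hm' : (0 : ℝ) < ((mon g (eA t) : ℤ) : ℝ) := by exact_mod_cast hm
        calc _ ≤ G t * Real.exp (-(δ * L t)) := h1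
          _ ≤ (F0 * ((mon g (eA t) : ℤ) : ℝ)) * Real.exp (-(δ * L t)) :=
              mul_le_mul_of_nonneg_right h2 (Real.exp_pos _).le
          _ ≤ (Real.exp (δ / 2 * L t) * ((mon g (eA t) : ℤ) : ℝ)) * Real.exp (-(δ * L t)) := by
              have := Real.exp_pos (-(δ * L t))
              gcongr
          _ = ((mon g (eA t) : ℤ) : ℝ) * (Real.exp (δ / 2 * L t) * Real.exp (-(δ * L t))) := by ring
          _ = _ := by rw [← Real.exp_add, Fin.cons_zero]; congr 2; ring)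
    have hfr' : ∃ᶠ t in atTop, y 0 * (mon g (eA t) * zA t) +
        ∑ i, y i.succ * (mon g (e t i) * z t i) = 0 := by
      refine hfreq.mono fun t ht => ?_
      rw [Fin.sum_univ_succ] at ht
      simpa only [Fin.cons_zero, Fin.cons_succ] using ht
    have hy0 : y 0 = 0 := by
      by_contra hne
      obtain ⟨t, ht, h1, h2, h3⟩ := (hfr'.and_eventually (hfr.hv.and (hT.and
        (hfr.hU.eventually_ge_atTop (v0 + (y 0).natAbs))))).exists
      refine not_dvd hp hne h1 h3 ?_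
      have h4 : y 0 * (mon g (eA t) * zA t) = -∑ i, y i.succ * (mon g (e t i) * z t i) := by linarith
      rw [h4]
      exact (Finset.dvd_sum fun i _ => (h2 i).2.2.2.mul_left _).neg_right
  · apply hy
    funext l
    obtain rfl : l = 0 := by
      apply Fin.ext
      have := l.isLt
      simp only [Fin.val_zero]
      omega
    exact hy0
  · obtain ⟨l0, hl0⟩ : ∃ i : Fin (s + 1), y i.succ ≠ 0 := by
      by_contra hcon
      push Not at hcon
      apply hy
      funext l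
      refine Fin.cases ?_ (fun i => ?_) l
      · exact hy0
      · exact hcon i
    obtain ⟨ψ, hψ, hrel⟩ := Filter.extraction_of_frequently_atTop hfr'
    have hψt := hψ.tendsto_atTop
    have hT' := terms_comp hT hψt
    refine ih _ _ _ _ _ (hfr.comp hψt) (((y l0.succ : ℤ) : O) * α)
      (mul_ne_zero (by exact_mod_cast hl0) hα)
      (fun j => ((y l0.succ : ℤ) : O) * θ (l0.succAbove j) -
        ((y (l0.succAbove j).succ : ℤ) : O) * θ l0) _ _ (terms_sub hT' l0) (δ / 2) (by positivity) ?_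
    refine (elim (ρ := ρ) (hfr.hL.comp hψt) hT' θ
      (fun n => ρ α * ((mon g (eA (ψ n)) * zA (ψ n) : ℤ) : ℝ)) hδ (hψt.eventually hs)
      (fun i => y i.succ) l0 hl0 (fun t => by
        have := hrel t
        rwa [hy0, zero_mul, zero_add] at this)).mono fun n hn => ?_
    refine le_trans (le_of_eq ?_) hn
    congr 3
    rw [map_mul, map_intCast, mul_assoc]

/-- elimination of the coordinate `b` -/
lemma elimB {k p : ℕ} {g : Fin k → ℕ} {C : ℝ} {r : ℕ} {O : Type} [CommRing O] {ρ : O →+* ℝ}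
    {L : ℕ → ℝ} {U : ℕ → ℕ} {G : ℕ → ℝ} (hL : Tendsto L atTop atTop)
    {e : ℕ → Fin r → Fin k → ℕ} {z : ℕ → Fin r → ℤ} (h : Terms p g C L U e z)
    (θ : Fin r → O) (β : O) (R : ℕ → ℝ) (b : ℕ → ℤ) {δ : ℝ} (hδ : 0 < δ)
    (hs : ∀ᶠ t in atTop, (1 + |R t + ρ β * (b t : ℝ) +
      ∑ l, ρ (θ l) * ((mon g (e t l) * z t l : ℤ) : ℝ)|) *
      ∏ l, |(z t l : ℝ)| ≤ G t * Real.exp (-(δ * L t)))
    (y0 : ℤ) (y : Fin r → ℤ) (hy : y0 ≠ 0)
    (hrel : ∀ t, y0 * b t + ∑ l, y l * (mon g (e t l) * z t l) = 0) :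
    ∀ᶠ t in atTop, (1 + |(y0 : ℝ) * R t + ∑ j : Fin r,
      ρ (((y0 : ℤ) : O) * θ j - ((y j : ℤ) : O) * β) *
        ((mon g (e t j) * z t j : ℤ) : ℝ)|) *
      ∏ j : Fin r, |(z t j : ℝ)| ≤ G t * Real.exp (-(δ / 2 * L t)) := by
  filter_upwards [hs, prod_one_le h, ev_const hL |(y0 : ℝ)| (δ / 2) (by positivity)] with t h1 h2 h3
  have hrelR : (y0 : ℝ) * (b t : ℝ) +
      ∑ j : Fin r, (y j : ℝ) * ((mon g (e t j) * z t j : ℤ) : ℝ) = 0 := by
    exact_mod_cast hrel t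
  have hform : (y0 : ℝ) * R t + ∑ j : Fin r,
      ρ (((y0 : ℤ) : O) * θ j - ((y j : ℤ) : O) * β) * ((mon g (e t j) * z t j : ℤ) : ℝ) =
      (y0 : ℝ) * (R t + ρ β * (b t : ℝ) +
        ∑ l, ρ (θ l) * ((mon g (e t l) * z t l : ℤ) : ℝ)) := by
    have h5 : ∀ j : Fin r,
        ρ (((y0 : ℤ) : O) * θ j - ((y j : ℤ) : O) * β) * ((mon g (e t j) * z t j : ℤ) : ℝ) =
        (y0 : ℝ) * (ρ (θ j) * ((mon g (e t j) * z t j : ℤ) : ℝ)) -
        ρ β * ((y j : ℝ) * ((mon g (e t j) * z t j : ℤ) : ℝ)) := by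
      intro j
      rw [map_sub, map_mul, map_mul, map_intCast, map_intCast]
      ring
    simp only [h5]
    rw [Finset.sum_sub_distrib, ← Finset.mul_sum, ← Finset.mul_sum]
    have h6 : ∑ j : Fin r, (y j : ℝ) * ((mon g (e t j) * z t j : ℤ) : ℝ) =
        -((y0 : ℝ) * (b t : ℝ)) := by linarith
    rw [h6]
    ring
  rw [hform, abs_mul]
  have hy1 : 1 ≤ |(y0 : ℝ)| := by
    have : 1 ≤ |y0| := Int.one_le_abs hy
    exact_mod_cast this
  set Q := |R t + ρ β * (b t : ℝ) + ∑ l, ρ (θ l) * ((mon g (e t l) * z t l : ℤ) : ℝ)| with hQ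
  have hQ0 : 0 ≤ Q := abs_nonneg _
  have hP0 : 0 ≤ ∏ j : Fin r, |(z t j : ℝ)| := by
    have := h2.2
    positivity
  calc (1 + |(y0 : ℝ)| * Q) * ∏ j : Fin r, |(z t j : ℝ)|
      ≤ (|(y0 : ℝ)| * (1 + Q)) * ∏ l, |(z t l : ℝ)| := by
        apply mul_le_mul_of_nonneg_right _ hP0
        nlinarith
    _ = |(y0 : ℝ)| * ((1 + Q) * ∏ l, |(z t l : ℝ)|) := by ring
    _ ≤ Real.exp (δ / 2 * L t) * (G t * Real.exp (-(δ * L t))) :=
        mul_le_mul h3 h1 (by positivity) (Real.exp_pos _).le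
    _ = G t * (Real.exp (δ / 2 * L t) * Real.exp (-(δ * L t))) := by ring
    _ = G t * Real.exp (-(δ / 2 * L t)) := by
        rw [← Real.exp_add]; congr 2; ring

/-- **Claim B**: the same with one more coordinate `g^eb * M`, `M` arbitrary. -/
theorem claimB (O : Type) [CommRing O] [IsDomain O] [CharZero O] [Module.Free ℤ O]
    [Module.Finite ℤ O] (ρ : O →+* ℝ) {k p : ℕ} (hp : p.Prime) {g : Fin k → ℕ} (hg : ∀ v, 0 < g v) {C F0 : ℝ}
    (hC : 0 ≤ C) (hF0 : 1 ≤ F0) {v0 : ℕ} (r : ℕ) :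
    ∀ (L : ℕ → ℝ) (U : ℕ → ℕ) (G : ℕ → ℝ) (eA : ℕ → Fin k → ℕ) (zA : ℕ → ℤ),
      Frame p g C F0 v0 L U G eA zA → ∀ (eb : ℕ → Fin k → ℕ) (M : ℕ → ℤ),
      (∀ᶠ t in atTop, G t ≤ ((mon g (eb t) : ℤ) : ℝ)) →
      (∀ᶠ t in atTop, ((mon g (eb t) : ℤ) : ℝ) ≤ Real.exp (C * L t)) →
      (∀ᶠ t in atTop, (p : ℤ) ^ U t ∣ mon g (eb t) * M t) →
      ∀ (α β : O), α ≠ 0 → β ≠ 0 → ∀ (θ : Fin r → O)
      (e : ℕ → Fin r → Fin k → ℕ) (z : ℕ → Fin r → ℤ), Terms p g C L U e z → ∀ δ : ℝ, 0 < δ →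
      (∀ᶠ t in atTop, (1 + |(ρ α * ((mon g (eA t) * zA t : ℤ) : ℝ) +
        ρ β * ((mon g (eb t) * M t : ℤ) : ℝ)) +
        ∑ l, ρ (θ l) * ((mon g (e t l) * z t l : ℤ) : ℝ)|) * ∏ l, |(z t l : ℝ)| ≤
        G t * Real.exp (-(δ * L t))) → False := by
  induction r with
  | zero => ?_
  | succ s ih => ?_
  all_goals
    intro L U G eA zA hfr eb M hGb hbC hbU α β hα hβ θ e z hT δ hδ hs
    let φ : O →+* ℂ := (Complex.ofRealHom).comp ρ
    have hφ : ∀ x : O, φ x = ((ρ x : ℝ) : ℂ) := fun x => rfl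
    have hreal : ∀ x : O, (φ x).im = 0 := fun x => Complex.ofReal_im _
    have hnorm : ∀ x : O, ‖φ x‖ = |ρ x| := fun x => by rw [hφ, Complex.norm_real]; rfl
    have hL0 : ∀ᶠ t in atTop, 0 ≤ L t := hfr.hL.eventually_ge_atTop 0
    obtain ⟨y, hy, hfreq⟩ := relZ O φ hreal g hg 0 (Fin.cons β (Fin.cons α θ)) (by simpa using hβ)
      (C + 1) (δ / 2)
      (by linarith) (by positivity) L hfr.hL (fun t => Fin.cons (eb t) (Fin.cons (eA t) (e t)))
      (fun t => Fin.cons (M t) (Fin.cons (zA t) (z t)))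
      (fun t => 1 + |(ρ α * ((mon g (eA t) * zA t : ℤ) : ℝ) +
        ρ β * ((mon g (eb t) * M t : ℤ) : ℝ)) +
        ∑ l, ρ (θ l) * ((mon g (e t l) * z t l : ℤ) : ℝ)|)
      (by
        filter_upwards [hfr.hC, hT, hL0, hbC] with t h1 h2 h3 h1' l
        have h4 : Real.exp (C * L t) ≤ Real.exp ((C + 1) * L t) := Real.exp_le_exp.2 (by nlinarith)
        refine Fin.cases ?_ (fun i => ?_) l
        · rw [Fin.cons_zero]
          exact h1'.trans h4
        · rw [Fin.cons_succ]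
          refine Fin.cases ?_ (fun i => ?_) i
          · rw [Fin.cons_zero]
            exact h1.trans h4
          · rw [Fin.cons_succ]
            exact (h2 i).1.trans h4)
      (by
        filter_upwards [hT, hfr.hz] with t h2 h3 l hl
        obtain ⟨i, rfl⟩ := Fin.exists_succ_eq.2 hl
        rw [Fin.cons_succ]
        refine Fin.cases ?_ (fun i => ?_) i
        · rw [Fin.cons_zero]
          exact h3.1
        · rw [Fin.cons_succ]
          exact (h2 i).2.1)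
      (by
        filter_upwards [hT, hL0, hfr.hz, ev_const hfr.hL F0 1 one_pos] with t h2 h3 h5 h6 l hl
        have h4 : Real.exp (C * L t) ≤ Real.exp ((C + 1) * L t) := Real.exp_le_exp.2 (by nlinarith)
        have h4' : Real.exp (1 * L t) ≤ Real.exp ((C + 1) * L t) := Real.exp_le_exp.2 (by nlinarith)
        obtain ⟨i, rfl⟩ := Fin.exists_succ_eq.2 hl
        rw [Fin.cons_succ]
        refine Fin.cases ?_ (fun i => ?_) i
        · rw [Fin.cons_zero]
          exact h5.2.trans (h6.trans h4')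
        · rw [Fin.cons_succ]
          exact (h2 i).2.2.1.trans h4)
      (by
        filter_upwards [hfr.hz] with t h2 h0
        apply h2.1
        have := congrFun h0 (Fin.succ 0)
        rwa [Fin.cons_succ, Fin.cons_zero] at this)
      (by
        filter_upwards [hs, prod_one_le hT, hfr.hC, hfr.hG, hL0,
          ev_const hfr.hL F0 1 one_pos] with t h1 h2 h3 h4 h5 h6
        refine ⟨by linarith [abs_nonneg ((ρ α * ((mon g (eA t) * zA t : ℤ) : ℝ) +
          ρ β * ((mon g (eb t) * M t : ℤ) : ℝ)) +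
          ∑ l, ρ (θ l) * ((mon g (e t l) * z t l : ℤ) : ℝ))], ?_⟩
        set Q := |(ρ α * ((mon g (eA t) * zA t : ℤ) : ℝ) +
          ρ β * ((mon g (eb t) * M t : ℤ) : ℝ)) +
          ∑ l, ρ (θ l) * ((mon g (e t l) * z t l : ℤ) : ℝ)| with hQ
        have hQ0 : 0 ≤ Q := abs_nonneg _
        have hm := mon_pos hg (eA t)
        have hm' : (0 : ℝ) < ((mon g (eA t) : ℤ) : ℝ) := by exact_mod_cast hm
        have h7 : Real.exp (-(δ * L t)) ≤ 1 := by
          rw [Real.exp_le_one_iff]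
          have : 0 ≤ δ * L t := by positivity
          linarith
        calc 1 + Q ≤ (1 + Q) * ∏ l, |(z t l : ℝ)| := by
              have := h2.2
              nlinarith
          _ ≤ G t * Real.exp (-(δ * L t)) := h1
          _ ≤ (F0 * ((mon g (eA t) : ℤ) : ℝ)) * 1 := by
              apply mul_le_mul h4 h7 (Real.exp_pos _).le (by positivity)
          _ = F0 * ((mon g (eA t) : ℤ) : ℝ) := mul_one _
          _ ≤ Real.exp (1 * L t) * Real.exp (C * L t) :=
              mul_le_mul h6 h3 hm'.le (Real.exp_pos _).le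
          _ = Real.exp ((C + 1) * L t) := by rw [← Real.exp_add]; congr 1; ring)
      (by
        filter_upwards with t
        rw [hnorm, Fin.sum_univ_succ, Fin.sum_univ_succ]
        simp only [Fin.cons_zero, Fin.cons_succ]
        rw [map_add, map_add, map_sum, map_mul, map_mul, map_intCast, map_intCast]
        simp only [map_mul, map_intCast]
        refine le_trans (le_of_eq ?_) (le_add_of_nonneg_left zero_le_one)
        congr 1
        ring)
      (by
        filter_upwards [hs, hfr.hz, ev_const hfr.hL F0 (δ / 2) (by positivity), hGb,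
          prod_one_le hT] with t h1 h2 h3 h4 h5
        rw [prod_cons, Fin.prod_univ_succ]
        simp only [Fin.cons_zero, Fin.cons_succ]
        have hm := mon_pos hg (eb t)
        have hm' : (0 : ℝ) < ((mon g (eb t) : ℤ) : ℝ) := by exact_mod_cast hm
        set Q := |(ρ α * ((mon g (eA t) * zA t : ℤ) : ℝ) +
          ρ β * ((mon g (eb t) * M t : ℤ) : ℝ)) +
          ∑ l, ρ (θ l) * ((mon g (e t l) * z t l : ℤ) : ℝ)| with hQ
        have hQ0 : 0 ≤ Q := abs_nonneg _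
        have h6 : 0 ≤ (1 + Q) * ∏ l, |(z t l : ℝ)| := by
          have := h5.2
          positivity
        calc (1 + Q) * (|(zA t : ℝ)| * ∏ l, |(z t l : ℝ)|)
            = |(zA t : ℝ)| * ((1 + Q) * ∏ l, |(z t l : ℝ)|) := by ring
          _ ≤ Real.exp (δ / 2 * L t) * (G t * Real.exp (-(δ * L t))) :=
              mul_le_mul (h2.2.trans h3) h1 h6 (Real.exp_pos _).le
          _ ≤ Real.exp (δ / 2 * L t) * (((mon g (eb t) : ℤ) : ℝ) * Real.exp (-(δ * L t))) := by
              have := Real.exp_pos (-(δ * L t))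
              gcongr
          _ = ((mon g (eb t) : ℤ) : ℝ) * (Real.exp (δ / 2 * L t) * Real.exp (-(δ * L t))) := by ring
          _ = _ := by rw [← Real.exp_add]; congr 2; ring)
    have hfr' : ∃ᶠ t in atTop, y 0 * (mon g (eb t) * M t) + (y 1 * (mon g (eA t) * zA t) +
        ∑ i, y i.succ.succ * (mon g (e t i) * z t i)) = 0 := by
      refine hfreq.mono fun t ht => ?_
      rw [Fin.sum_univ_succ, Fin.sum_univ_succ] at ht
      simp only [Fin.cons_zero, Fin.cons_succ] at ht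
      exact ht
    have hy1 : y 1 = 0 := by
      by_contra hne
      obtain ⟨t, ht, h1, h2, h3, h4⟩ := (hfr'.and_eventually (hfr.hv.and (hT.and
        ((hfr.hU.eventually_ge_atTop (v0 + (y 1).natAbs)).and hbU)))).exists
      refine not_dvd hp hne h1 h3 ?_
      have h5 : y 1 * (mon g (eA t) * zA t) = -(y 0 * (mon g (eb t) * M t) +
        ∑ i, y i.succ.succ * (mon g (e t i) * z t i)) := by linarith
      rw [h5]
      exact ((h4.mul_left _).add (Finset.dvd_sum fun i _ => (h2 i).2.2.2.mul_left _)).neg_right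
    obtain ⟨ψ, hψ, hrel⟩ := Filter.extraction_of_frequently_atTop hfr'
    have hψt := hψ.tendsto_atTop
    have hT' := terms_comp hT hψt
  -- if the coefficient of the last coordinate is not zero, eliminate it
  all_goals
    by_cases hy0 : y 0 = 0
  · apply hy
    funext l
    have hl : l = 0 ∨ l = 1 := by
      have := l.isLt
      rcases Nat.lt_or_ge l.val 1 with h | h
      · left; apply Fin.ext; simp only [Fin.val_zero]; omega
      · right; apply Fin.ext; simp only [Fin.val_one]; omega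
    rcases hl with rfl | rfl
    · exact hy0
    · exact hy1
  · refine claimA O ρ hp hg hC hF0 0 _ _ _ _ _ (hfr.comp hψt) (((y 0 : ℤ) : O) * α)
      (mul_ne_zero (by exact_mod_cast hy0) hα)
      (fun j => ((y 0 : ℤ) : O) * θ j - ((y j.succ.succ : ℤ) : O) * β) _ _ hT' (δ / 2)
      (by positivity) ?_
    refine (elimB (ρ := ρ) (hfr.hL.comp hψt) hT' θ β
      (fun n => ρ α * ((mon g (eA (ψ n)) * zA (ψ n) : ℤ) : ℝ))
      (fun n => mon g (eb (ψ n)) * M (ψ n)) hδ (hψt.eventually hs)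
      (y 0) (fun i => y i.succ.succ) hy0 (fun t => by
        have h9 := hrel t
        have h10 : y 1 * (mon g (eA (ψ t)) * zA (ψ t)) = 0 := by rw [hy1, zero_mul]
        linarith)).mono fun n hn => ?_
    refine le_trans (le_of_eq ?_) hn
    congr 3
    rw [map_mul, map_intCast, mul_assoc]
  · obtain ⟨l0, hl0⟩ : ∃ i : Fin (s + 1), y i.succ.succ ≠ 0 := by
      by_contra hcon
      push Not at hcon
      apply hy
      funext l
      refine Fin.cases ?_ (fun i => ?_) l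
      · exact hy0
      · refine Fin.cases ?_ (fun i => ?_) i
        · exact hy1
        · exact hcon i
    refine ih _ _ _ _ _ (hfr.comp hψt) (fun n => eb (ψ n)) (fun n => M (ψ n)) (hψt.eventually hGb)
      (hψt.eventually hbC) (hψt.eventually hbU) (((y l0.succ.succ : ℤ) : O) * α)
      (((y l0.succ.succ : ℤ) : O) * β)
      (mul_ne_zero (by exact_mod_cast hl0) hα) (mul_ne_zero (by exact_mod_cast hl0) hβ)
      (fun j => ((y l0.succ.succ : ℤ) : O) * θ (l0.succAbove j) -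
        ((y (l0.succAbove j).succ.succ : ℤ) : O) * θ l0) _ _ (terms_sub hT' l0) (δ / 2)
      (by positivity) ?_
    refine (elim (ρ := ρ) (hfr.hL.comp hψt) hT' θ
      (fun n => ρ α * ((mon g (eA (ψ n)) * zA (ψ n) : ℤ) : ℝ) +
        ρ β * ((mon g (eb (ψ n)) * M (ψ n) : ℤ) : ℝ)) hδ (hψt.eventually hs)
      (fun i => y i.succ.succ) l0 hl0 (fun t => by
        have := hrel t
        rwa [hy0, hy1, zero_mul, zero_mul, zero_add, zero_add] at this)).mono fun n hn => ?_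
    refine le_trans (le_of_eq ?_) hn
    congr 3
    rw [map_mul, map_mul, map_intCast]
    ring
  · refine claimA O ρ hp hg hC hF0 (s + 1) _ _ _ _ _ (hfr.comp hψt) (((y 0 : ℤ) : O) * α)
      (mul_ne_zero (by exact_mod_cast hy0) hα)
      (fun j => ((y 0 : ℤ) : O) * θ j - ((y j.succ.succ : ℤ) : O) * β) _ _ hT' (δ / 2)
      (by positivity) ?_
    refine (elimB (ρ := ρ) (hfr.hL.comp hψt) hT' θ β
      (fun n => ρ α * ((mon g (eA (ψ n)) * zA (ψ n) : ℤ) : ℝ))
      (fun n => mon g (eb (ψ n)) * M (ψ n)) hδ (hψt.eventually hs)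
      (y 0) (fun i => y i.succ.succ) hy0 (fun t => by
        have h9 := hrel t
        have h10 : y 1 * (mon g (eA (ψ t)) * zA (ψ t)) = 0 := by rw [hy1, zero_mul]
        linarith)).mono fun n hn => ?_
    refine le_trans (le_of_eq ?_) hn
    congr 3
    rw [map_mul, map_intCast, mul_assoc]

end Pool.Agent.U773.WN
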