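import Mathlib
import Pool.Agent.U773.WN.Claim
import Pool.Agent.U773.SF.Sep
import Pool.Agent.TH419.WI.ArithF

/-! Numbers written in windows of the expansions of almost-units. -/

set_option autoImplicit false

open Finset Filter Topology

namespace Pool.Agent.U773.WN

open Pool.Agent.TH419.WI Pool.Agent.N671.OPN Pool.Agent.U773.SF

lemma mon_spart' {S : Finset ℕ} (x : ℤ) :
    mon (gS S) (fun v => x.natAbs.factorization (gS S v)) = ((spart S x.natAbs : ℕ) : ℤ) :=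
  mon_spart _

/-- the quotient by the `S`-part -/
lemma mul_quot {S : Finset ℕ} (hS : ∀ p ∈ S, p.Prime) (x : ℤ) :
    mon (gS S) (fun v => x.natAbs.factorization (gS S v)) *
      (x / ((spart S x.natAbs : ℕ) : ℤ)) = x := by
  rw [mon_spart]
  exact Int.mul_ediv_cancel' (Int.natCast_dvd.2 (spart_dvd hS _))

lemma quot_abs {S : Finset ℕ} (hS : ∀ p ∈ S, p.Prime) (x : ℤ) :
    |((x / ((spart S x.natAbs : ℕ) : ℤ) : ℤ) : ℝ)| = free S x := by
  have h1 := mul_quot hS x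
  rw [mon_spart] at h1
  have h2 := free_mul_spart hS x
  have h3 := congrArg Int.natAbs h1
  rw [Int.natAbs_mul, Int.natAbs_natCast, mul_comm] at h3
  have h4 : (x / ((spart S x.natAbs : ℕ) : ℤ)).natAbs = free S x := by
    apply Nat.eq_of_mul_eq_mul_right (spart_pos hS x.natAbs)
    rw [h3, h2]
  rw [← h4, Nat.cast_natAbs, Int.cast_abs]

lemma quot_ne {S : Finset ℕ} (hS : ∀ p ∈ S, p.Prime) {x : ℤ} (hx : x ≠ 0) :
    x / ((spart S x.natAbs : ℕ) : ℤ) ≠ 0 := by
  intro h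
  have h1 := mul_quot hS x
  rw [h, mul_zero] at h1
  exact hx h1.symm

lemma mon_le_abs {S : Finset ℕ} (hS : ∀ p ∈ S, p.Prime) {x : ℤ} (hx : x ≠ 0) :
    ((mon (gS S) (fun v => x.natAbs.factorization (gS S v)) : ℤ) : ℝ) ≤ |(x : ℝ)| := by
  rw [mon_spart]
  have h1 : spart S x.natAbs ≤ x.natAbs :=
    Nat.le_of_dvd (Int.natAbs_pos.2 hx) (spart_dvd hS _)
  have h2 : ((spart S x.natAbs : ℕ) : ℝ) ≤ (x.natAbs : ℝ) := by exact_mod_cast h1
  rw [Nat.cast_natAbs, Int.cast_abs] at h2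
  exact_mod_cast h2

/-- **Windows of almost-units.** -/
theorem windows {p q : ℕ} (hp : p.Prime) (hq : 2 ≤ q) (hpq : p ∣ q) {S : Finset ℕ}
    (hS : ∀ x ∈ S, x.Prime) (hqS : ∀ x : ℕ, x.Prime → x ∣ q → x ∈ S) (F0 v0 r : ℕ)
    (θ : Fin r → ℝ) (hθ : ∀ l, IsAlgebraic ℚ (θ l)) (C δ : ℝ) (hδ : 0 < δ) :
    ∃ U0 : ℕ, ∀ A u m : ℕ, U0 ≤ u → U0 ≤ m → 0 < A → free S (A : ℤ) ≤ F0 → ¬ p ^ v0 ∣ A →
      (A : ℝ) ≤ Real.exp (C * m) → q ^ (u + m) ≤ F0 * A → ∀ (v : Fin r → ℤ) (M : ℤ),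
      (∀ l, v l ≠ 0 ∧ |(v l : ℝ)| ≤ Real.exp (C * m)) →
      (q : ℝ) ^ ((1 - δ) * (m : ℝ)) <
        (1 + |((A / q ^ u % q ^ m : ℕ) : ℝ) - ∑ l, θ l * v l - (q : ℝ) ^ m * M|) *
          ∏ l, (free S (v l) : ℝ) := by
  by_contra hcon
  push Not at hcon
  choose A u m hu hm hA0 hAF hAv hAC hAq v M hv hsm using hcon
  have hq1 : (2 : ℝ) ≤ q := by exact_mod_cast hq
  have hq0 : (0 : ℝ) < q := by linarith
  have hlq : 0 < Real.log q := Real.log_pos (by linarith)
  have hF1 : 1 ≤ F0 := by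
    have h1 := hAF 0
    have h2 := free_pos hS (x := (A 0 : ℤ)) (by have := hA0 0; omega)
    omega
  have hmt : Tendsto (fun t => (m t : ℝ)) atTop atTop :=
    tendsto_natCast_atTop_atTop.comp (tendsto_atTop_mono hm tendsto_id)
  have hut : Tendsto u atTop atTop := tendsto_atTop_mono hu tendsto_id
  obtain ⟨O, d, hd, hfin, hO⟩ := exists_order θ hθ
  have hdR : (d : ℝ) ≠ 0 := by exact_mod_cast hd
  let ρ : O →+* ℝ := O.val.toRingHom
  have hρ : ∀ x : O, ρ x = (x : ℝ) := fun x => rfl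
  -- the coordinates
  set X : ℕ → Fin r → ℤ := fun t l => (q : ℤ) ^ u t * v t l with hX
  have hX0 : ∀ t l, X t l ≠ 0 := fun t l =>
    mul_ne_zero (pow_ne_zero _ (by omega)) (hv t l).1
  have hqu : ∀ a : ℕ, ∀ x : ℕ, x.Prime → x ∣ (((q : ℤ) ^ a).natAbs) → x ∈ S := by
    intro a x hx hxa
    rw [Int.natAbs_pow, Int.natAbs_natCast] at hxa
    exact hqS x hx (hx.dvd_of_dvd_pow hxa)
  have hXfree : ∀ t l, free S (X t l) = free S (v t l) := by
    intro t l
    simp only [hX]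
    rw [free_mul hS (pow_ne_zero _ (by omega)) (hv t l).1,
      free_unit hS (pow_ne_zero _ (by omega)) (hqu _), one_mul]
  set C' : ℝ := C + Real.log F0 + C + 1 with hC'
  have hlF : 0 ≤ Real.log F0 := Real.log_nonneg (by exact_mod_cast hF1)
  have hF0pos : (0 : ℝ) < F0 := by exact_mod_cast hF1
  have hC0 : 0 ≤ C := by
    by_contra hneg
    push Not at hneg
    have h1 := hAC 1
    have h2 : (1 : ℝ) ≤ A 1 := by exact_mod_cast hA0 1
    have h3 : (1 : ℝ) ≤ m 1 := by exact_mod_cast hm 1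
    have h4 : Real.exp (C * m 1) < 1 := by
      rw [Real.exp_lt_one_iff]
      nlinarith
    linarith
  have hquC : ∀ᶠ t in atTop, (q : ℝ) ^ u t * (q : ℝ) ^ m t ≤ Real.exp ((C + Real.log F0) * m t) := by
    filter_upwards [hmt.eventually_ge_atTop 1] with t ht
    have h1 : ((q ^ (u t + m t) : ℕ) : ℝ) ≤ ((F0 * A t : ℕ) : ℝ) := by exact_mod_cast hAq t
    push_cast at h1
    rw [pow_add] at h1
    refine h1.trans ?_
    calc (F0 : ℝ) * A t ≤ Real.exp (Real.log F0 * m t) * Real.exp (C * m t) := by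
          apply mul_le_mul _ (hAC t) (Nat.cast_nonneg _) (Real.exp_pos _).le
          calc (F0 : ℝ) = Real.exp (Real.log F0) := (Real.exp_log hF0pos).symm
            _ ≤ _ := Real.exp_le_exp.2 (by nlinarith)
      _ = _ := by rw [← Real.exp_add]; congr 1; ring
  have hquC1 : ∀ᶠ t in atTop, (q : ℝ) ^ u t ≤ Real.exp ((C + Real.log F0) * m t) := by
    filter_upwards [hquC] with t ht
    refine le_trans ?_ ht
    have h1 : (1 : ℝ) ≤ (q : ℝ) ^ m t := one_le_pow₀ (by linarith)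
    have h2 : (0 : ℝ) < (q : ℝ) ^ u t := by positivity
    nlinarith
  have hm0 : ∀ t, (0 : ℝ) ≤ m t := fun t => Nat.cast_nonneg _
  have hCC : ∀ t, Real.exp (C * m t) ≤ Real.exp (C' * m t) := fun t => by
    apply Real.exp_le_exp.2
    have := hm0 t
    rw [hC']
    nlinarith
  have hCC2 : ∀ t, Real.exp ((C + Real.log F0) * m t) ≤ Real.exp (C' * m t) := fun t => by
    apply Real.exp_le_exp.2
    have := hm0 t
    rw [hC']
    nlinarith
  have hXC : ∀ᶠ t in atTop, ∀ l, |(X t l : ℝ)| ≤ Real.exp (C' * m t) := by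
    filter_upwards [hquC1] with t ht l
    have h1 : |(X t l : ℝ)| = (q : ℝ) ^ u t * |(v t l : ℝ)| := by
      simp only [hX]
      push_cast
      rw [abs_mul, abs_of_pos (by positivity)]
    rw [h1]
    calc (q : ℝ) ^ u t * |(v t l : ℝ)| ≤ Real.exp ((C + Real.log F0) * m t) * Real.exp (C * m t) :=
          mul_le_mul ht (hv t l).2 (abs_nonneg _) (Real.exp_pos _).le
      _ ≤ Real.exp (C' * m t) := by
          rw [← Real.exp_add]
          apply Real.exp_le_exp.2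
          have := hm0 t
          rw [hC']
          nlinarith
  set eA : ℕ → Fin S.card → ℕ := fun t w => ((A t : ℤ)).natAbs.factorization (gS S w) with heA
  set zA : ℕ → ℤ := fun t => (A t : ℤ) / ((spart S (A t : ℤ).natAbs : ℕ) : ℤ) with hzA
  have hAne : ∀ t, (A t : ℤ) ≠ 0 := fun t => by have := hA0 t; omega
  have hAA : ∀ t, mon (gS S) (eA t) * zA t = (A t : ℤ) := fun t => mul_quot hS _
  have hfr : Frame p (gS S) C' (F0 * F0 : ℝ) v0 (fun t => (m t : ℝ)) u
      (fun t => (q : ℝ) ^ (u t + m t)) eA zA := by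
    refine ⟨hmt, hut, ?_, ?_, ?_, ?_⟩
    · refine Eventually.of_forall fun t => ⟨quot_ne hS (hAne t), ?_⟩
      simp only [hzA]
      rw [quot_abs hS]
      have h1 : (free S (A t : ℤ) : ℝ) ≤ F0 := by exact_mod_cast hAF t
      have h2 : (1 : ℝ) ≤ F0 := by exact_mod_cast hF1
      nlinarith
    · refine Eventually.of_forall fun t => ?_
      rw [hAA]
      intro h
      apply hAv t
      exact_mod_cast h
    · refine Eventually.of_forall fun t => ?_
      refine (mon_le_abs hS (hAne t)).trans ?_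
      rw [Int.cast_natCast, abs_of_nonneg (Nat.cast_nonneg _)]
      exact (hAC t).trans (hCC t)
    · refine Eventually.of_forall fun t => ?_
      have h1 : ((q ^ (u t + m t) : ℕ) : ℝ) ≤ ((F0 * A t : ℕ) : ℝ) := by exact_mod_cast hAq t
      push_cast at h1
      refine h1.trans ?_
      have h2 : (A t : ℝ) = ((mon (gS S) (eA t) : ℤ) : ℝ) * |(zA t : ℝ)| := by
        have h3 : ((mon (gS S) (eA t) * zA t : ℤ) : ℝ) = (A t : ℝ) := by rw [hAA]; simp
        have h4 : (0 : ℝ) < ((mon (gS S) (eA t) : ℤ) : ℝ) := by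
          exact_mod_cast mon_pos (gS_pos hS) (eA t)
        rw [← abs_of_nonneg (Nat.cast_nonneg (A t) : (0 : ℝ) ≤ A t), ← h3]
        push_cast
        rw [abs_mul, abs_of_pos h4]
      rw [h2]
      simp only [hzA]
      rw [quot_abs hS]
      have h1 : (free S (A t : ℤ) : ℝ) ≤ F0 := by exact_mod_cast hAF t
      have h4 : (0 : ℝ) < ((mon (gS S) (eA t) : ℤ) : ℝ) := by
        exact_mod_cast mon_pos (gS_pos hS) (eA t)
      calc (F0 : ℝ) * (((mon (gS S) (eA t) : ℤ) : ℝ) * (free S (A t : ℤ) : ℝ))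
          ≤ (F0 : ℝ) * (((mon (gS S) (eA t) : ℤ) : ℝ) * F0) := by gcongr
        _ = F0 * F0 * ((mon (gS S) (eA t) : ℤ) : ℝ) := by ring
  set eb : ℕ → Fin S.card → ℕ := fun t w =>
    (((q : ℤ) ^ (u t + m t))).natAbs.factorization (gS S w) with heb
  have hmb : ∀ t, mon (gS S) (eb t) = (q : ℤ) ^ (u t + m t) := by
    intro t
    simp only [heb]
    rw [mon_spart, spart_self hS (Int.natAbs_ne_zero.2 (pow_ne_zero _ (by omega))) (hqu _),
      Int.natAbs_pow, Int.natAbs_natCast]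
    push_cast
    rfl
  have hpqZ : (p : ℤ) ∣ (q : ℤ) := by exact_mod_cast hpq
  obtain ⟨N, hN⟩ : ∃ N : ℕ → ℕ, ∀ t, A t / q ^ (u t + m t) = N t := ⟨_, fun _ => rfl⟩
  have hXX : ∀ t l, mon (gS S) (fun w => (X t l).natAbs.factorization (gS S w)) *
      (X t l / ((spart S (X t l).natAbs : ℕ) : ℤ)) = X t l := fun t l => mul_quot hS _
  refine claimB O ρ hp (gS_pos hS) (C := C') (F0 := F0 * F0) (by rw [hC']; linarith)
    (by have h2 : (1 : ℝ) ≤ F0 := by exact_mod_cast hF1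
        nlinarith) (v0 := v0) r (fun t => (m t : ℝ)) u (fun t => (q : ℝ) ^ (u t + m t)) eA zA hfr
    eb (fun t => (N t : ℤ) + M t) ?_ ?_ ?_ (d : O) (-(d : O))
    (by exact_mod_cast hd) (by rw [neg_ne_zero]; exact_mod_cast hd)
    (fun l => -(⟨(d : ℝ) * θ l, hO l⟩ : O))
    (fun t l w => (X t l).natAbs.factorization (gS S w))
    (fun t l => X t l / ((spart S (X t l).natAbs : ℕ) : ℤ)) ?_ (δ * Real.log q / 2) (by positivity) ?_
  · refine Eventually.of_forall fun t => ?_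
    rw [hmb]
    push_cast
    exact le_rfl
  · filter_upwards [hquC] with t ht
    rw [hmb]
    push_cast
    rw [pow_add]
    exact ht.trans (hCC2 t)
  · refine Eventually.of_forall fun t => ?_
    rw [hmb, pow_add]
    exact ((pow_dvd_pow_of_dvd hpqZ _).mul_right _).mul_right _
  · filter_upwards [hXC] with t ht l
    refine ⟨(mon_le_abs hS (hX0 t l)).trans (ht l), quot_ne hS (hX0 t l), ?_, ?_⟩
    · rw [quot_abs hS]
      exact (free_le_abs _ _).trans (ht l)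
    · rw [hXX]
      simp only [hX]
      exact (pow_dvd_pow_of_dvd hpqZ _).mul_right _
  · filter_upwards [ev_const hmt (2 * |(d : ℝ)|) (δ * Real.log q / 2) (by positivity)] with t ht
    simp only [hXX, hAA, hmb, quot_abs hS, hXfree]
    set w : ℕ := A t / q ^ u t % q ^ m t with hw
    have hdiv : A t = q ^ u t * (w + q ^ m t * N t) + A t % q ^ u t := by
      have h1 := Nat.div_add_mod (A t) (q ^ u t)
      have h2 := Nat.div_add_mod (A t / q ^ u t) (q ^ m t)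
      rw [Nat.div_div_eq_div_mul, ← pow_add, hN] at h2
      rw [hw]
      conv_lhs => rw [← h1, ← h2]
      ring
    have hrem : A t % q ^ u t < q ^ u t := Nat.mod_lt _ (by positivity)
    have hform : ρ (d : O) * (((A t : ℤ)) : ℝ) + ρ (-(d : O)) * (((q : ℤ) ^ (u t + m t) *
        ((N t : ℤ) + M t) : ℤ) : ℝ) +
        ∑ l, ρ (-(⟨(d : ℝ) * θ l, hO l⟩ : O)) * ((X t l : ℤ) : ℝ) =
        (d : ℝ) * ((q : ℝ) ^ u t * ((w : ℝ) - ∑ l, θ l * v t l - (q : ℝ) ^ m t * M t) +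
          ((A t % q ^ u t : ℕ) : ℝ)) := by
      have h1 : ρ (d : O) = (d : ℝ) := by rw [map_intCast]
      have h2 : ∀ l, ρ (-(⟨(d : ℝ) * θ l, hO l⟩ : O)) * ((X t l : ℤ) : ℝ) =
          -((d : ℝ) * (q : ℝ) ^ u t) * (θ l * v t l) := by
        intro l
        rw [map_neg, hρ]
        simp only [hX]
        push_cast
        ring
      simp only [h2]
      rw [map_neg, h1, ← Finset.mul_sum]
      have h3 : (((A t : ℕ) : ℤ) : ℝ) = (q : ℝ) ^ u t * ((w : ℝ) + (q : ℝ) ^ m t *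
          (N t : ℝ)) + ((A t % q ^ u t : ℕ) : ℝ) := by
        rw [Int.cast_natCast]
        conv_lhs => rw [hdiv]
        push_cast
        ring
      rw [h3]
      push_cast
      rw [pow_add]
      ring
    rw [hform]
    set Q : ℝ := |(w : ℝ) - ∑ l, θ l * v t l - (q : ℝ) ^ m t * M t| with hQ
    have hQ0 : 0 ≤ Q := abs_nonneg _
    have hqup : (1 : ℝ) ≤ (q : ℝ) ^ u t := one_le_pow₀ (by linarith)
    have hd1 : (1 : ℝ) ≤ |(d : ℝ)| := by
      have : 1 ≤ |d| := Int.one_le_abs hd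
      exact_mod_cast this
    have hb1 : 1 + |(d : ℝ) * ((q : ℝ) ^ u t * ((w : ℝ) - ∑ l, θ l * v t l - (q : ℝ) ^ m t * M t) +
          ((A t % q ^ u t : ℕ) : ℝ))| ≤ 2 * |(d : ℝ)| * (q : ℝ) ^ u t * (1 + Q) := by
      rw [abs_mul]
      have h4 : |(q : ℝ) ^ u t * ((w : ℝ) - ∑ l, θ l * v t l - (q : ℝ) ^ m t * M t) +
          ((A t % q ^ u t : ℕ) : ℝ)| ≤ (q : ℝ) ^ u t * Q + (q : ℝ) ^ u t := by
        refine (abs_add_le _ _).trans ?_
        rw [abs_mul, abs_of_pos (show (0 : ℝ) < (q : ℝ) ^ u t by positivity),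
          abs_of_nonneg (Nat.cast_nonneg (A t % q ^ u t) : (0 : ℝ) ≤ ((A t % q ^ u t : ℕ) : ℝ))]
        have : ((A t % q ^ u t : ℕ) : ℝ) ≤ (q : ℝ) ^ u t := by exact_mod_cast hrem.le
        linarith
      have h5 : |(d : ℝ)| * |(q : ℝ) ^ u t * ((w : ℝ) - ∑ l, θ l * v t l - (q : ℝ) ^ m t * M t) +
          ((A t % q ^ u t : ℕ) : ℝ)| ≤ |(d : ℝ)| * ((q : ℝ) ^ u t * Q + (q : ℝ) ^ u t) := by gcongr
      have h6 : 1 ≤ |(d : ℝ)| * (q : ℝ) ^ u t := one_le_mul_of_one_le_of_one_le hd1 hqup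
      have h7 : 0 ≤ |(d : ℝ)| * (q : ℝ) ^ u t * Q := by positivity
      nlinarith
    have hPf : (0 : ℝ) ≤ ∏ l, (free S (v t l) : ℝ) := Finset.prod_nonneg fun _ _ => Nat.cast_nonneg _
    calc _ ≤ (2 * |(d : ℝ)| * (q : ℝ) ^ u t * (1 + Q)) * ∏ l, (free S (v t l) : ℝ) :=
          mul_le_mul_of_nonneg_right hb1 hPf
      _ = 2 * |(d : ℝ)| * (q : ℝ) ^ u t * ((1 + Q) * ∏ l, (free S (v t l) : ℝ)) := by ring
      _ ≤ Real.exp (δ * Real.log q / 2 * m t) * (q : ℝ) ^ u t * (q : ℝ) ^ ((1 - δ) * (m t : ℝ)) := by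
          apply mul_le_mul _ (hsm t) (by positivity) (by positivity)
          exact mul_le_mul_of_nonneg_right ht (by positivity)
      _ = (q : ℝ) ^ (u t + m t) * Real.exp (-(δ * Real.log q / 2 * m t)) := by
          rw [Real.rpow_def_of_pos hq0, pow_add, mul_comm (Real.exp _) ((q : ℝ) ^ u t), mul_assoc,
            ← Real.exp_add, mul_assoc]
          congr 1
          rw [← Real.rpow_natCast (q : ℝ) (m t), Real.rpow_def_of_pos hq0, ← Real.exp_add]
          congr 1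
          ring

end Pool.Agent.U773.WN
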