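import Mathlib
import Pool.Agent.U773.WN.Num
import Pool.Agent.H429R2.Auto

/-! The numbers written in the rows of the automaton. -/

set_option autoImplicit false

open Finset Filter Topology

namespace Pool.Agent.U773.WN

open Pool.Agent.H429R2.Auto (Conf F Rep rep_iter exists_rep)
open Pool.Agent.U773.SF

/-- the number written in the cells `i, …, i + m - 1` of the configuration `y`, in base 6 -/
def num (y : ℤ → Fin 6) (i : ℤ) (m : ℕ) : ℕ := ∑ t ∈ range m, (y (i + t) : ℕ) * 6 ^ (m - 1 - t)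

lemma digit_sum (B q m : ℕ) :
    ∑ t ∈ range m, B / q ^ (m - 1 - t) % q * q ^ (m - 1 - t) = B % q ^ m := by
  rw [← Finset.sum_range_reflect]
  have h : ∀ j ∈ range m, B / q ^ (m - 1 - (m - 1 - j)) % q * q ^ (m - 1 - (m - 1 - j)) =
      B / q ^ j % q * q ^ j := by
    intro j hj
    rw [mem_range] at hj
    rw [show m - 1 - (m - 1 - j) = j by omega]
  rw [Finset.sum_congr rfl h]
  clear h
  induction m with
  | zero => simp [Nat.mod_one]
  | succ m ih =>
    rw [Finset.sum_range_succ, ih, Nat.mod_pow_succ]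
    ring

theorem cell {x : Conf} {A0 k : ℕ} (hx : Rep x ((A0 : ℝ) / 6 ^ k)) (n u : ℕ) (i : ℤ)
    (hi : i + u = n + k) : ((F^[n] x i : Fin 6) : ℕ) = A0 * 9 ^ n / 6 ^ u % 6 := by
  have hβ : (0 : ℝ) ≤ (A0 : ℝ) / 6 ^ k := by positivity
  rw [rep_iter hβ hx n i]
  have e3 : (6 : ℝ) ^ i * ((3 / 2) ^ n * (A0 / 6 ^ k)) =
      ((A0 * 9 ^ n : ℕ) : ℝ) / ((6 ^ u : ℕ) : ℝ) := by
    rw [show i = ((n + k : ℕ) : ℤ) - (u : ℕ) by push_cast; omega,
      zpow_sub₀ (by norm_num), zpow_natCast, zpow_natCast]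
    push_cast
    have h9 : (9 : ℝ) ^ n = 6 ^ n * (3 / 2) ^ n := by rw [← mul_pow]; norm_num
    rw [h9, pow_add]
    field_simp
  rw [e3, Nat.floor_div_eq_div]

lemma num_eq {x : Conf} {A0 k : ℕ} (hx : Rep x ((A0 : ℝ) / 6 ^ k)) (n u m : ℕ) (i : ℤ)
    (hi : i + m + u = n + k + 1) : num (F^[n] x) i m = A0 * 9 ^ n / 6 ^ u % 6 ^ m := by
  rw [← digit_sum]
  unfold num
  refine Finset.sum_congr rfl fun t ht => ?_
  rw [mem_range] at ht
  rw [cell hx n (u + (m - 1 - t)) (i + t) (by omega), pow_add, ← Nat.div_div_eq_div_mul]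

/-- the general inequality for the rows of the automaton -/
theorem rows (x : ℤ → Fin 6) (hfin : {i | x i ≠ 0}.Finite) (hx : ∃ i, x i ≠ 0)
    (S : Finset ℕ) (hS : ∀ p ∈ S, p.Prime) (r : ℕ) (θ : Fin r → ℝ)
    (hθ : ∀ l, IsAlgebraic ℚ (θ l)) (C ε δ : ℝ) (hε : 0 < ε) (hδ : 0 < δ) (K : ℕ) :
    ∃ U : ℕ, ∀ (n m : ℕ) (i : ℤ), ε * n ≤ m → (∃ j ≤ i, F^[n] x j ≠ 0) → i + m + U ≤ n → K ≤ m ∧
      ∀ (v : Fin r → ℤ) (M : ℤ), (∀ l, v l ≠ 0 ∧ |(v l : ℝ)| ≤ Real.exp (C * m)) →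
      (6 : ℝ) ^ ((1 - δ) * (m : ℝ)) <
        (1 + |(num (F^[n] x) i m : ℝ) - ∑ l, θ l * v l - 6 ^ m * M|) *
          ∏ l, (free S (v l) : ℝ) := by
  obtain ⟨A0, k, hrep, hA0, -⟩ := exists_rep (x := x) hfin
  have hA0 : 0 < A0 := hA0 (by
    rintro rfl
    obtain ⟨i, hi⟩ := hx
    exact hi rfl)
  set S' : Finset ℕ := S ∪ {2, 3} with hS'
  have hS'p : ∀ p ∈ S', p.Prime := by
    intro p hp
    simp only [hS', mem_union, mem_insert, mem_singleton] at hp
    rcases hp with h | rfl | rfl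
    · exact hS p h
    · exact Nat.prime_two
    · exact Nat.prime_three
  have h6S : ∀ x : ℕ, x.Prime → x ∣ 6 → x ∈ S' := by
    intro y hy hy6
    have h1 : y ∣ 2 * 3 := by simpa using hy6
    rcases (hy.dvd_mul).1 h1 with h | h
    · rw [(Nat.prime_dvd_prime_iff_eq hy Nat.prime_two).1 h]
      simp [hS']
    · rw [(Nat.prime_dvd_prime_iff_eq hy Nat.prime_three).1 h]
      simp [hS']
  set C1 : ℝ := |C| + Real.log A0 + Real.log 9 / ε with hC1
  have hlA : 0 ≤ Real.log A0 := Real.log_nonneg (by exact_mod_cast hA0)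
  have hl9 : 0 < Real.log 9 := Real.log_pos (by norm_num)
  obtain ⟨U0, hU0⟩ := windows Nat.prime_two (show 2 ≤ 6 by norm_num) (show 2 ∣ 6 by norm_num)
    hS'p h6S (6 * A0) A0 r θ hθ C1 δ hδ
  set U1 : ℕ := ⌈(U0 + K + 1 : ℝ) / ε⌉₊ with hU1
  refine ⟨U0 + 2 * U1 + A0 + 1, ?_⟩
  intro n m i hnm hj hin
  obtain ⟨j, hji, hj0⟩ := hj
  obtain ⟨u, hu⟩ : ∃ u : ℕ, i + m + u = n + k + 1 := ⟨(n + k + 1 - i - m).toNat, by omega⟩
  obtain ⟨u', hu'⟩ : ∃ u' : ℕ, j + u' = n + k := ⟨(n + k - j).toNat, by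
    by_contra hcon
    have h1 : (n + k : ℤ) < j := by omega
    omega⟩
  have hAn : 0 < A0 * 9 ^ n := by positivity
  have hpos : 6 ^ u' ≤ A0 * 9 ^ n := by
    by_contra hlt
    push Not at hlt
    have h1 := cell hrep n u' j hu'
    rw [Nat.div_eq_of_lt hlt, Nat.zero_mod] at h1
    exact hj0 (Fin.ext h1)
  have h1 : 6 ^ (u + m) ≤ 6 * (A0 * 9 ^ n) := by
    calc 6 ^ (u + m) ≤ 6 ^ (u' + 1) := Nat.pow_le_pow_right (by norm_num) (by omega)
      _ = 6 * 6 ^ u' := by rw [pow_succ]; ring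
      _ ≤ _ := by omega
  -- `n` is large
  have hun : u + m ≤ 1 + A0 + 2 * n := by
    have h2 : 6 ^ (u + m) ≤ 6 ^ (1 + A0 + 2 * n) := by
      calc 6 ^ (u + m) ≤ 6 * (A0 * 9 ^ n) := h1
        _ ≤ 6 * (6 ^ A0 * 36 ^ n) := by
            have h3 : A0 ≤ 6 ^ A0 := (Nat.lt_pow_self (by norm_num)).le
            have h4 : 9 ^ n ≤ 36 ^ n := Nat.pow_le_pow_left (by norm_num) _
            exact Nat.mul_le_mul le_rfl (Nat.mul_le_mul h3 h4)
        _ = 6 ^ (1 + A0 + 2 * n) := by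
            rw [show 36 = 6 ^ 2 by norm_num, ← pow_mul, pow_add, pow_add, pow_one]
            ring
    exact (Nat.pow_le_pow_iff_right (by norm_num)).1 h2
  have hnU : U1 ≤ n := by omega
  have hmU : (U0 : ℝ) + K + 1 ≤ m := by
    have h2' : ((U1 : ℕ) : ℝ) ≤ n := by exact_mod_cast hnU
    have h2 : (U0 + K + 1 : ℝ) / ε ≤ n := (Nat.le_ceil ((U0 + K + 1 : ℝ) / ε)).trans h2'
    rw [div_le_iff₀ hε] at h2
    linarith
  have hK0 : (0 : ℝ) ≤ K := Nat.cast_nonneg _
  have hmU' : U0 ≤ m := by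
    have : (U0 : ℝ) ≤ m := by linarith
    exact_mod_cast this
  have hm1 : (1 : ℝ) ≤ m := by
    have : (0 : ℝ) ≤ U0 := Nat.cast_nonneg _
    linarith
  have hmK : K ≤ m := by
    have h3 : (0 : ℝ) ≤ U0 := Nat.cast_nonneg _
    have : (K : ℝ) ≤ m := by linarith
    exact_mod_cast this
  refine ⟨hmK, ?_⟩
  intro v M hv
  have hmain := hU0 (A0 * 9 ^ n) u m (by omega) hmU' hAn ?_ ?_ ?_ ?_ v M ?_
  · rw [num_eq hrep n u m i hu]
    have h2 : (6 : ℝ) ^ ((1 - δ) * (m : ℝ)) = ((6 : ℕ) : ℝ) ^ ((1 - δ) * (m : ℝ)) := by norm_num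
    rw [h2]
    refine hmain.trans_le ?_
    have h3 : ∏ l, (free S' (v l) : ℝ) ≤ ∏ l, (free S (v l) : ℝ) := by
      refine Finset.prod_le_prod (fun _ _ => Nat.cast_nonneg _) fun l _ => ?_
      exact_mod_cast free_anti hS hS'p Finset.subset_union_left (v l)
    have h4 : (((6 : ℕ) : ℝ)) = 6 := by norm_num
    rw [h4]
    exact mul_le_mul_of_nonneg_left h3 (by positivity)
  · -- the free part
    have h2 : ((A0 * 9 ^ n : ℕ) : ℤ) = (A0 : ℤ) * 9 ^ n := by push_cast; ring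
    rw [h2, free_mul hS'p (by exact_mod_cast hA0.ne') (by positivity),
      free_unit hS'p (u := 9 ^ n) (by positivity) (by
        intro y hy hyd
        rw [Int.natAbs_pow] at hyd
        have h3 := hy.dvd_of_dvd_pow hyd
        have h4 : y ∣ 3 ^ 2 := by simpa using h3
        rw [(Nat.prime_dvd_prime_iff_eq hy Nat.prime_three).1 (hy.dvd_of_dvd_pow h4)]
        simp [hS']), mul_one]
    have h5 : free S' (A0 : ℤ) ≤ A0 := by
      have := Nat.div_le_self (A0 : ℤ).natAbs (∏ p ∈ S', p ^ padicValNat p (A0 : ℤ).natAbs)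
      simpa [free] using this
    omega
  · intro hdvd
    have h2 : Nat.Coprime (2 ^ A0) (9 ^ n) := Nat.Coprime.pow _ _ (by norm_num)
    have h3 := Nat.le_of_dvd hA0 (h2.dvd_of_dvd_mul_right hdvd)
    have h4 : A0 < 2 ^ A0 := Nat.lt_two_pow_self
    omega
  · have h2 : (n : ℝ) ≤ m / ε := by rw [le_div_iff₀ hε]; linarith
    push_cast
    calc (A0 : ℝ) * 9 ^ n = Real.exp (Real.log A0 + n * Real.log 9) := by
          rw [Real.exp_add, Real.exp_log (by exact_mod_cast hA0), mul_comm (n : ℝ), Real.exp_mul,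
            Real.exp_log (by norm_num), Real.rpow_natCast]
      _ ≤ Real.exp (C1 * m) := by
          apply Real.exp_le_exp.2
          have h3 : n * Real.log 9 ≤ m / ε * Real.log 9 := mul_le_mul_of_nonneg_right h2 hl9.le
          have h4 : 0 ≤ |C| * m := by positivity
          have h5 : Real.log A0 ≤ Real.log A0 * m := by nlinarith
          calc Real.log A0 + n * Real.log 9 ≤ Real.log A0 * m + m / ε * Real.log 9 + |C| * m := by
                linarith
            _ = C1 * m := by rw [hC1]; ring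
  · calc 6 ^ (u + m) ≤ 6 * (A0 * 9 ^ n) := h1
      _ ≤ 6 * A0 * (A0 * 9 ^ n) := by
          rw [mul_assoc]
          exact Nat.mul_le_mul le_rfl (Nat.le_mul_of_pos_left _ hA0)
  · intro l
    refine ⟨(hv l).1, (hv l).2.trans (Real.exp_le_exp.2 ?_)⟩
    have h2 : C ≤ C1 := by
      rw [hC1]
      have := le_abs_self C
      have : 0 ≤ Real.log 9 / ε := by positivity
      linarith
    exact mul_le_mul_of_nonneg_right h2 (by linarith)

lemma free_six (a : ℕ) : free {2, 3} ((6 : ℤ) ^ a) = 1 := by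
  apply free_unit
  · intro p hp
    simp only [mem_insert, mem_singleton] at hp
    rcases hp with rfl | rfl
    · exact Nat.prime_two
    · exact Nat.prime_three
  · positivity
  · intro p hp hd
    rw [Int.natAbs_pow] at hd
    have h2 : p ∣ 2 * 3 := by simpa using hp.dvd_of_dvd_pow hd
    rcases (hp.dvd_mul).1 h2 with h | h
    · rw [(Nat.prime_dvd_prime_iff_eq hp Nat.prime_two).1 h]
      simp
    · rw [(Nat.prime_dvd_prime_iff_eq hp Nat.prime_three).1 h]
      simp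

lemma two_lt {m : ℕ} (hm1 : 1 ≤ m) : (2 : ℝ) < (6 : ℝ) ^ ((1 - 1 / 2) * (m : ℝ)) := by
  have h8 : (6 : ℝ) ^ ((1 : ℝ) / 2) ≤ (6 : ℝ) ^ ((1 - 1 / 2) * (m : ℝ)) := by
    apply Real.rpow_le_rpow_of_exponent_le (by norm_num)
    have : (1 : ℝ) ≤ m := by exact_mod_cast hm1
    linarith
  have h9 : (2 : ℝ) < (6 : ℝ) ^ ((1 : ℝ) / 2) := by
    rw [← Real.sqrt_eq_rpow, Real.lt_sqrt (by norm_num)]
    norm_num
  linarith

/-- the rows share no long words with the expansion of an algebraic number -/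
theorem rows_alg (x : ℤ → Fin 6) (hfin : {i | x i ≠ 0}.Finite) (hx : ∃ i, x i ≠ 0)
    (θ : ℝ) (hθ0 : 0 ≤ θ) (hθ : IsAlgebraic ℚ θ) (C ε : ℝ) (hε : 0 < ε) :
    ∃ U : ℕ, ∀ (n m : ℕ) (i : ℤ), ε * n ≤ m → (∃ j ≤ i, F^[n] x j ≠ 0) → i + m + U ≤ n →
      ∀ k : ℕ, (k : ℝ) ≤ C * m →
        ∃ t < m, (F^[n] x (i + t) : ℕ) ≠ ⌊θ * 6 ^ (k + t)⌋₊ % 6 := by
  obtain ⟨U1, hU1⟩ := rows x hfin hx {2, 3} (by
    intro p hp
    simp only [mem_insert, mem_singleton] at hp
    rcases hp with rfl | rfl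
    · exact Nat.prime_two
    · exact Nat.prime_three) 1 (fun _ => θ) (fun _ => hθ) ((C + 1) * Real.log 6) ε (1 / 2) hε
    (by norm_num) 1
  refine ⟨U1, ?_⟩
  intro n m i hnm hj hin k hk
  by_contra hcon
  push Not at hcon
  obtain ⟨hm1, hmain⟩ := hU1 n m i hnm hj hin
  set B : ℕ := ⌊θ * 6 ^ (k + (m - 1))⌋₊ with hB
  have hnum : num (F^[n] x) i m = B % 6 ^ m := by
    rw [← digit_sum]
    unfold num
    refine Finset.sum_congr rfl fun t ht => ?_
    rw [mem_range] at ht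
    rw [hcon t ht]
    congr 2
    rw [hB, ← Nat.floor_div_natCast]
    congr 1
    push_cast
    rw [eq_div_iff (by positivity), mul_assoc, ← pow_add]
    congr 2
    omega
  have h1 := hmain (fun _ => 6 ^ (k + (m - 1))) (-((B / 6 ^ m : ℕ) : ℤ)) ?_
  · simp only [Finset.univ_unique, Finset.sum_singleton, Finset.prod_singleton, free_six] at h1
    rw [hnum] at h1
    have h3 : (((B % 6 ^ m : ℕ) : ℝ)) + 6 ^ m * ((B / 6 ^ m : ℕ) : ℝ) = B := by
      exact_mod_cast Nat.mod_add_div B (6 ^ m)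
    have h4 : (B : ℝ) ≤ θ * 6 ^ (k + (m - 1)) := Nat.floor_le (by positivity)
    have h5 : θ * 6 ^ (k + (m - 1)) < B + 1 := Nat.lt_floor_add_one _
    have h6 : |((B % 6 ^ m : ℕ) : ℝ) - θ * (((6 : ℤ) ^ (k + (m - 1)) : ℤ) : ℝ) -
        6 ^ m * ((-((B / 6 ^ m : ℕ) : ℤ) : ℤ) : ℝ)| ≤ 1 := by
      have e1 : ((-((B / 6 ^ m : ℕ) : ℤ) : ℤ) : ℝ) = -((B / 6 ^ m : ℕ) : ℝ) := by
        rw [Int.cast_neg, Int.cast_natCast]
      have e2 : (((6 : ℤ) ^ (k + (m - 1)) : ℤ) : ℝ) = 6 ^ (k + (m - 1)) := by push_cast; rfl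
      rw [e1, e2, abs_le]
      constructor <;> linarith
    have h7 := two_lt hm1
    rw [Nat.cast_one, mul_one] at h1
    linarith
  · intro l
    refine ⟨by positivity, ?_⟩
    push_cast
    rw [abs_of_pos (by positivity)]
    calc (6 : ℝ) ^ (k + (m - 1)) = Real.exp (Real.log 6 * ((k + (m - 1) : ℕ) : ℝ)) := by
          rw [Real.exp_mul, Real.exp_log (by norm_num), Real.rpow_natCast]
      _ ≤ _ := by
          apply Real.exp_le_exp.2
          have h2 : ((k + (m - 1) : ℕ) : ℝ) ≤ (C + 1) * m := by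
            have h3 : ((m - 1 : ℕ) : ℝ) ≤ m := by exact_mod_cast Nat.sub_le _ _
            rw [Nat.cast_add]
            linarith
          have h4 : 0 ≤ Real.log 6 := Real.log_nonneg (by norm_num)
          nlinarith

/-- the numbers have many digits in every base -/
theorem rows_base (x : ℤ → Fin 6) (hfin : {i | x i ≠ 0}.Finite) (hx : ∃ i, x i ≠ 0)
    (b : ℕ) (hb : 2 ≤ b) (R : ℕ) (ε : ℝ) (hε : 0 < ε) :
    ∃ U : ℕ, ∀ (n m : ℕ) (i : ℤ), ε * n ≤ m → (∃ j ≤ i, F^[n] x j ≠ 0) → i + m + U ≤ n →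
      R < {j : ℕ | num (F^[n] x) i m / b ^ j % b ≠ 0}.ncard := by
  choose U hU using fun s : ℕ => rows x hfin hx b.primeFactors
    (fun p hp => Nat.prime_of_mem_primeFactors hp) s (fun _ => 1) (fun _ => isAlgebraic_one)
    (Real.log 6) ε (1 / 2) hε (by norm_num) (2 * (b ^ R) + 1)
  refine ⟨∑ s ∈ range (R + 1), U s, ?_⟩
  intro n m i hnm hj hin
  set w : ℕ := num (F^[n] x) i m with hw
  have hwlt : w < 6 ^ m := by
    have h1 := Pool.Agent.H429R2.Auto.sum_lt m (fun j => F^[n] x (i + (m - 1 - j : ℕ)))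
    rw [← Finset.sum_range_reflect] at h1
    refine lt_of_le_of_lt (le_of_eq ?_) h1
    rw [hw]
    unfold num
    refine Finset.sum_congr rfl fun t ht => ?_
    rw [mem_range] at ht
    rw [show m - 1 - (m - 1 - t) = t by omega]
  have hwb : w < b ^ (3 * m) := by
    calc w < 6 ^ m := hwlt
      _ ≤ 8 ^ m := Nat.pow_le_pow_left (by norm_num) _
      _ = 2 ^ (3 * m) := by rw [pow_mul]; norm_num
      _ ≤ b ^ (3 * m) := Nat.pow_le_pow_left hb _
  set T : Finset ℕ := (range (3 * m)).filter (fun j => w / b ^ j % b ≠ 0) with hT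
  have hset : {j : ℕ | w / b ^ j % b ≠ 0} = (T : Set ℕ) := by
    ext j
    simp only [Set.mem_setOf_eq, hT, coe_filter, mem_range]
    constructor
    · intro h
      refine ⟨?_, h⟩
      by_contra hj
      push Not at hj
      apply h
      rw [Nat.div_eq_of_lt (hwb.trans_le (Nat.pow_le_pow_right (by omega) hj)), Nat.zero_mod]
    · exact fun h => h.2
  rw [hset, Set.ncard_coe_finset]
  by_contra hcard
  push Not at hcard
  have hsum : w = ∑ j ∈ T, w / b ^ j % b * b ^ j := by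
    have h1 := digit_sum w b (3 * m)
    rw [Nat.mod_eq_of_lt hwb, ← Finset.sum_range_reflect] at h1
    have h2 : ∑ j ∈ range (3 * m), w / b ^ (3 * m - 1 - (3 * m - 1 - j)) % b *
        b ^ (3 * m - 1 - (3 * m - 1 - j)) = ∑ j ∈ range (3 * m), w / b ^ j % b * b ^ j := by
      refine Finset.sum_congr rfl fun j hj => ?_
      rw [mem_range] at hj
      rw [show 3 * m - 1 - (3 * m - 1 - j) = j by omega]
    rw [h2] at h1
    rw [hT, Finset.sum_filter]
    conv_lhs => rw [← h1]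
    refine Finset.sum_congr rfl fun j _ => ?_
    split_ifs with h
    · rfl
    · push Not at h
      rw [h, zero_mul]
  have hUle : U T.card ≤ ∑ s ∈ range (R + 1), U s :=
    Finset.single_le_sum (f := U) (fun _ _ => Nat.zero_le _) (mem_range.2 (by omega))
  obtain ⟨hmK, hmain⟩ := hU T.card n m i hnm hj (by omega)
  let f : Fin T.card ≃ T := T.equivFin.symm
  have hdig : ∀ l, 1 ≤ w / b ^ (f l : ℕ) % b ∧ w / b ^ (f l : ℕ) % b < b := by
    intro l
    have h1 := (f l).2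
    simp only [hT, mem_filter] at h1
    exact ⟨by omega, Nat.mod_lt _ (by omega)⟩
  have hterm : ∀ l, w / b ^ (f l : ℕ) % b * b ^ (f l : ℕ) ≤ w := by
    intro l
    conv_rhs => rw [hsum]
    exact Finset.single_le_sum (f := fun j => w / b ^ j % b * b ^ j) (fun _ _ => Nat.zero_le _)
      (f l).2
  have h1 := hmain (fun l => ((w / b ^ (f l : ℕ) % b * b ^ (f l : ℕ) : ℕ) : ℤ)) 0 ?_
  · have h2 : (w : ℝ) - ∑ l, (1 : ℝ) * ((((w / b ^ (f l : ℕ) % b * b ^ (f l : ℕ) : ℕ) : ℤ)) : ℝ) -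
        6 ^ m * ((0 : ℤ) : ℝ) = 0 := by
      have h3 : ∑ l, (((w / b ^ (f l : ℕ) % b * b ^ (f l : ℕ) : ℕ)) : ℝ) = w := by
        have h4 : ∑ l, (w / b ^ (f l : ℕ) % b * b ^ (f l : ℕ)) =
            ∑ j ∈ T, w / b ^ j % b * b ^ j := by
          rw [← Finset.sum_coe_sort T (fun j => w / b ^ j % b * b ^ j)]
          exact Equiv.sum_comp f (fun j : T => w / b ^ (j : ℕ) % b * b ^ (j : ℕ))
        rw [← Nat.cast_sum, h4, ← hsum]
      simp only [one_mul, Int.cast_natCast, h3]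
      simp
    rw [h2, abs_zero, add_zero, one_mul] at h1
    have h5 : ∏ l, (free b.primeFactors (((w / b ^ (f l : ℕ) % b * b ^ (f l : ℕ) : ℕ) : ℤ)) : ℝ) ≤
        (b : ℝ) ^ R := by
      calc _ ≤ ∏ _l : Fin T.card, (b : ℝ) := by
            refine Finset.prod_le_prod (fun _ _ => Nat.cast_nonneg _) fun l _ => ?_
            have h6 := hdig l
            have h7 : (((w / b ^ (f l : ℕ) % b * b ^ (f l : ℕ) : ℕ) : ℤ)) =
                ((w / b ^ (f l : ℕ) % b : ℕ) : ℤ) * ((b : ℤ) ^ (f l : ℕ)) := by push_cast; ring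
            have hP : ∀ p ∈ b.primeFactors, p.Prime := fun p hp => Nat.prime_of_mem_primeFactors hp
            rw [h7, free_mul hP (by omega) (pow_ne_zero _ (by omega)),
              free_unit hP (u := (b : ℤ) ^ (f l : ℕ)) (pow_ne_zero _ (by omega)) (by
                intro p hp hd
                rw [Int.natAbs_pow, Int.natAbs_natCast] at hd
                exact Nat.mem_primeFactors.2 ⟨hp, hp.dvd_of_dvd_pow hd, by omega⟩), mul_one]
            have h8 := free_le_abs b.primeFactors ((w / b ^ (f l : ℕ) % b : ℕ) : ℤ)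
            refine h8.trans ?_
            rw [Int.cast_natCast, abs_of_nonneg (Nat.cast_nonneg _)]
            exact_mod_cast h6.2.le
        _ = (b : ℝ) ^ T.card := by
            rw [Finset.prod_const, Finset.card_univ, Fintype.card_fin]
        _ ≤ (b : ℝ) ^ R := pow_le_pow_right₀ (by exact_mod_cast (by omega : 1 ≤ b)) hcard
    have h6 : (b : ℝ) ^ R < (6 : ℝ) ^ ((1 - 1 / 2) * (m : ℝ)) := by
      have h7 : (2 * b ^ R : ℕ) < m := by omega
      have h8 : (2 : ℝ) * (b : ℝ) ^ R < m := by exact_mod_cast h7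
      have h9 : (1 - 1 / 2) * (m : ℝ) * Real.log 6 + 1 ≤ (6 : ℝ) ^ ((1 - 1 / 2) * (m : ℝ)) := by
        rw [Real.rpow_def_of_pos (by norm_num), mul_comm (Real.log 6)]
        exact Real.add_one_le_exp _
      have h10 : (1 : ℝ) ≤ Real.log 6 := by
        rw [Real.le_log_iff_exp_le (by norm_num)]
        have := Real.exp_one_lt_d9
        linarith
      nlinarith
    linarith
  · intro l
    have h2 := hdig l
    refine ⟨?_, ?_⟩
    · have : 0 < w / b ^ (f l : ℕ) % b * b ^ (f l : ℕ) := Nat.mul_pos (by omega) (by positivity)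
      exact_mod_cast this.ne'
    · rw [Int.cast_natCast, abs_of_nonneg (Nat.cast_nonneg _)]
      have h3 : ((w / b ^ (f l : ℕ) % b * b ^ (f l : ℕ) : ℕ) : ℝ) ≤ w := by exact_mod_cast hterm l
      have h4 : (w : ℝ) ≤ 6 ^ m := by exact_mod_cast hwlt.le
      refine h3.trans (h4.trans (le_of_eq ?_))
      rw [Real.exp_mul, Real.exp_log (by norm_num), Real.rpow_natCast]

end Pool.Agent.U773.WN
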